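import Pool.Agent.Helper671.NC.Defs

set_option autoImplicit false

namespace Pool.Agent.Helper671.NC

open MeasureTheory


theorem ee_rep (x : UnitAddCircle) : ∃ y : ℝ, |y| ≤ 1 / 2 ∧ ‖x‖ = |y| ∧
    ‖ee x - 1‖ = 2 * |Real.sin (Real.pi * y)| := by
  obtain ⟨z, rfl⟩ := QuotientAddGroup.mk_surjective x
  refine ⟨z - round z, abs_sub_round z, UnitAddCircle.norm_eq, ?_⟩
  have h0 : (((round z : ℤ) : ℝ) : UnitAddCircle) = 0 := by
    have h1 : (((round z : ℤ) • (1 : ℝ) : ℝ) : UnitAddCircle) =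
      (round z : ℤ) • ((1 : ℝ) : UnitAddCircle) := AddCircle.coe_zsmul _
    rw [zsmul_eq_mul, mul_one] at h1
    rw [h1, AddCircle.coe_period, smul_zero]
  have h2 : (QuotientAddGroup.mk z : UnitAddCircle) = ((z - round z : ℝ) : UnitAddCircle) := by
    rw [AddCircle.coe_sub, h0, sub_zero]
  rw [h2, ee_coe]
  have h3 : (2 * Real.pi * ((z - round z : ℝ) : ℂ) * Complex.I : ℂ) =
      Complex.I * ((2 * Real.pi * (z - round z) : ℝ) : ℂ) := by
    push_cast; ring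
  rw [h3, Complex.norm_exp_I_mul_ofReal_sub_one, Real.norm_eq_abs, abs_mul,
    abs_of_pos (show (0 : ℝ) < 2 by norm_num)]
  congr 3
  ring

theorem norm_ee_sub_one_le (x : UnitAddCircle) : ‖ee x - 1‖ ≤ 2 * Real.pi * ‖x‖ := by
  obtain ⟨y, -, h2, h3⟩ := ee_rep x
  rw [h3, h2]
  have h4 : |Real.sin (Real.pi * y)| ≤ |Real.pi * y| := Real.abs_sin_le_abs
  rw [abs_mul, abs_of_pos Real.pi_pos] at h4
  linarith

theorem le_norm_ee_sub_one (x : UnitAddCircle) : 4 * ‖x‖ ≤ ‖ee x - 1‖ := by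
  obtain ⟨y, h1, h2, h3⟩ := ee_rep x
  rw [h3, h2]
  have hp := Real.pi_pos
  have h4 : 2 / Real.pi * |Real.pi * y| ≤ |Real.sin (Real.pi * y)| := by
    apply Real.mul_abs_le_abs_sin
    rw [abs_mul, abs_of_pos hp]
    nlinarith
  rw [abs_mul, abs_of_pos hp] at h4
  have h5 : 2 / Real.pi * (Real.pi * |y|) = 2 * |y| := by
    field_simp
  rw [h5] at h4
  linarith

theorem norm_sum_ee_le (K : ℕ) (x : UnitAddCircle) (hx : x ≠ 0) :
    ‖∑ κ : Fin K, ee ((κ : ℕ) • x)‖ ≤ 1 / (2 * ‖x‖) := by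
  have h1 : ∑ κ : Fin K, ee ((κ : ℕ) • x) = ∑ k ∈ Finset.range K, ee x ^ k := by
    rw [Finset.sum_range]
    exact Finset.sum_congr rfl fun κ _ => ee_nsmul _ _
  have hx0 : 0 < ‖x‖ := norm_pos_iff.2 hx
  have h2 := geom_sum_mul (ee x) K
  have h3 : ‖(∑ k ∈ Finset.range K, ee x ^ k) * (ee x - 1)‖ ≤ 2 := by
    rw [h2]
    refine (norm_sub_le _ _).trans ?_
    rw [norm_pow, norm_ee, one_pow, norm_one]
    norm_num
  rw [norm_mul] at h3
  have h4 := le_norm_ee_sub_one x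
  rw [h1, le_div_iff₀ (by positivity)]
  have h5 : ‖∑ k ∈ Finset.range K, ee x ^ k‖ * (4 * ‖x‖) ≤ 2 :=
    (mul_le_mul_of_nonneg_left h4 (norm_nonneg _)).trans h3
  linarith

end Pool.Agent.Helper671.NC
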