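import Pool.Agent.Helper671.NC.Defs

set_option autoImplicit false

namespace Pool.Agent.Helper671.NC

open MeasureTheory


theorem int_sin_aux (a b : ℝ) : ∫ x in a..b, Real.sin (2 * Real.pi * x) =
    (Real.cos (2 * Real.pi * a) - Real.cos (2 * Real.pi * b)) / (2 * Real.pi) := by
  have hpi : (2 * Real.pi) ≠ 0 := by positivity
  rw [intervalIntegral.integral_comp_mul_left (fun x => Real.sin x) hpi, integral_sin,
    smul_eq_mul, div_eq_inv_mul]

theorem int_cos_aux (a b : ℝ) : ∫ x in a..b, Real.cos (2 * Real.pi * x) =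
    (Real.sin (2 * Real.pi * b) - Real.sin (2 * Real.pi * a)) / (2 * Real.pi) := by
  have hpi : (2 * Real.pi) ≠ 0 := by positivity
  rw [intervalIntegral.integral_comp_mul_left (fun x => Real.cos x) hpi, integral_cos,
    smul_eq_mul, div_eq_inv_mul]

theorem ee_coe_im (x : ℝ) : (ee (x : UnitAddCircle)).im = Real.sin (2 * Real.pi * x) := by
  rw [ee_coe]
  have : (2 * Real.pi * x * Complex.I : ℂ) = ((2 * Real.pi * x : ℝ) : ℂ) * Complex.I := by
    push_cast; ring
  rw [this, Complex.exp_ofReal_mul_I_im]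

theorem ee_coe_re (x : ℝ) : (ee (x : UnitAddCircle)).re = Real.cos (2 * Real.pi * x) := by
  rw [ee_coe]
  have : (2 * Real.pi * x * Complex.I : ℂ) = ((2 * Real.pi * x : ℝ) : ℂ) * Complex.I := by
    push_cast; ring
  rw [this, Complex.exp_ofReal_mul_I_re]

theorem integral_neg_im_ee (θ : UnitAddCircle) :
    ∫ x : UnitAddCircle, -(ee (x + chi x • θ)).im = (1 - (ee θ).re) / Real.pi := by
  have hpi := Real.pi_pos
  have h0 := UnitAddCircle.intervalIntegral_preimage 0
    (fun x : UnitAddCircle => -(ee (x + chi x • θ)).im)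
  rw [← h0, zero_add]
  set F : ℝ → ℝ := fun a => -(ee ((a : UnitAddCircle) + chi (a : UnitAddCircle) • θ)).im with hF
  set g1 : ℝ → ℝ := fun a => -(Real.sin (2 * Real.pi * a) * (ee θ).re +
    Real.cos (2 * Real.pi * a) * (ee θ).im) with hg1
  set g2 : ℝ → ℝ := fun a => -Real.sin (2 * Real.pi * a) with hg2
  have e1 : Set.EqOn F g1 (Set.Ioo 0 (1 / 2)) := by
    intro x hx
    have hs : 0 < Real.sin (2 * Real.pi * x) := by
      apply Real.sin_pos_of_pos_of_lt_pi
      · have := hx.1; positivity
      · have := hx.2; nlinarith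
    have hc : chi (x : UnitAddCircle) = 1 := by
      unfold chi
      rw [if_pos]
      rw [ee_coe_im]; exact hs
    simp only [hF, hg1]
    rw [hc, one_smul, ee_add, Complex.mul_im, ee_coe_im, ee_coe_re]
    ring
  have e2 : Set.EqOn F g2 (Set.Ioo (1 / 2) 1) := by
    intro x hx
    have hs : Real.sin (2 * Real.pi * x) < 0 := by
      have h1 : Real.sin (2 * Real.pi * x) = - Real.sin (2 * Real.pi * x - Real.pi) := by
        rw [Real.sin_sub_pi]; ring
      rw [h1, neg_lt_zero]
      apply Real.sin_pos_of_pos_of_lt_pi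
      · have := hx.1; nlinarith
      · have := hx.2; nlinarith
    have hc : chi (x : UnitAddCircle) = 0 := by
      unfold chi
      rw [if_neg]
      rw [ee_coe_im]; linarith
    simp only [hF, hg2]
    rw [hc, zero_smul, add_zero, ee_coe_im]
  have c1 : Continuous g1 := by
    simp only [hg1]; fun_prop
  have c2 : Continuous g2 := by
    simp only [hg2]; fun_prop
  have u1 : Set.uIoo (0 : ℝ) (1 / 2) = Set.Ioo 0 (1 / 2) := Set.uIoo_of_le (by norm_num)
  have u2 : Set.uIoo (1 / 2 : ℝ) 1 = Set.Ioo (1 / 2) 1 := Set.uIoo_of_le (by norm_num)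
  have i1 : IntervalIntegrable F volume 0 (1 / 2) :=
    (c1.intervalIntegrable _ _).congr_uIoo (by rw [u1]; exact e1.symm)
  have i2 : IntervalIntegrable F volume (1 / 2) 1 :=
    (c2.intervalIntegrable _ _).congr_uIoo (by rw [u2]; exact e2.symm)
  have s : ∫ a in (0 : ℝ)..1, F a = (∫ a in (0 : ℝ)..(1 / 2), F a) + ∫ a in (1 / 2 : ℝ)..1, F a :=
    (intervalIntegral.integral_add_adjacent_intervals i1 i2).symm
  have s' : ∫ (a : ℝ) in (0 : ℝ)..1, -(ee ((a : UnitAddCircle) + chi (a : UnitAddCircle) • θ)).im =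
    ∫ a in (0 : ℝ)..1, F a := rfl
  rw [s', s, intervalIntegral.integral_congr_Ioo_of_le (by norm_num) e1,
    intervalIntegral.integral_congr_Ioo_of_le (by norm_num) e2]
  simp only [hg1, hg2]
  rw [intervalIntegral.integral_neg, intervalIntegral.integral_neg,
    intervalIntegral.integral_add (by apply Continuous.intervalIntegrable; fun_prop)
      (by apply Continuous.intervalIntegrable; fun_prop),
    intervalIntegral.integral_mul_const, intervalIntegral.integral_mul_const,
    int_sin_aux, int_sin_aux, int_cos_aux]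
  have a1 : 2 * Real.pi * (1 / 2) = Real.pi := by ring
  have a2 : 2 * Real.pi * 1 = 2 * Real.pi := by ring
  rw [a1, a2, mul_zero, Real.cos_pi, Real.sin_pi, Real.cos_two_pi, Real.cos_zero, Real.sin_zero]
  field_simp
  ring

end Pool.Agent.Helper671.NC
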