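import Pool.Agent.Helper671.NC.Defs

set_option autoImplicit false

namespace Pool.Agent.Helper671.NC

open MeasureTheory


theorem hoeffding_pi {Ω : Type} [MeasurableSpace Ω] (ν : Measure Ω) [IsProbabilityMeasure ν]
    {J : Type} [Fintype J] (g : J → Ω → ℝ) (hg : ∀ j, Measurable (g j))
    (hb : ∀ j ω, |g j ω| ≤ 1) (ε : ℝ) (hε : 0 ≤ ε) :
    (Measure.pi fun _ : J => ν).real
      {y | ∑ j, ∫ ω, g j ω ∂ν + ε * Fintype.card J ≤ ∑ j, g j (y j)} ≤
      Real.exp (-(ε ^ 2 * Fintype.card J / 2)) := by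
  have h1 : ∀ j, ∫ y : J → Ω, g j (y j) ∂(Measure.pi fun _ : J => ν) = ∫ ω, g j ω ∂ν := by
    intro j
    have hmp := measurePreserving_eval (fun _ : J => ν) j
    have h2 := integral_map (μ := Measure.pi fun _ : J => ν) (φ := Function.eval j)
      hmp.measurable.aemeasurable (f := g j) (by
        rw [hmp.map_eq]; exact (hg j).aestronglyMeasurable)
    rw [hmp.map_eq] at h2
    exact h2.symm
  have hsub : ∀ j, ProbabilityTheory.HasSubgaussianMGF
      (fun y : J → Ω => g j (y j) - ∫ ω, g j ω ∂ν) 1 (Measure.pi fun _ : J => ν) := by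
    intro j
    have h := ProbabilityTheory.hasSubgaussianMGF_of_mem_Icc (μ := Measure.pi fun _ : J => ν)
      (X := fun y : J → Ω => g j (y j)) (a := -1) (b := 1)
      ((hg j).comp (measurable_pi_apply j)).aemeasurable
      (ae_of_all _ fun y => abs_le.1 (hb j (y j)))
    rw [h1 j] at h
    have hc : ((‖(1:ℝ) - -1‖₊ / 2) ^ 2 : NNReal) = 1 := by
      have : ‖(1:ℝ) - -1‖₊ = 2 := by
        ext
        rw [coe_nnnorm]
        norm_num
      rw [this]
      norm_num
    rw [hc] at h
    exact h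
  have hindep : ProbabilityTheory.iIndepFun
      (fun (j : J) (y : J → Ω) => g j (y j) - ∫ ω, g j ω ∂ν) (Measure.pi fun _ : J => ν) :=
    ProbabilityTheory.iIndepFun_pi (X := fun (j : J) (ω : Ω) => g j ω - ∫ ω, g j ω ∂ν)
      (fun j => ((hg j).sub_const _).aemeasurable)
  have h := ProbabilityTheory.HasSubgaussianMGF.measure_sum_ge_le_of_iIndepFun hindep
    (s := Finset.univ) (fun j _ => hsub j) (ε := ε * Fintype.card J) (by positivity)
  have hset : {y : J → Ω | ∑ j, ∫ ω, g j ω ∂ν + ε * Fintype.card J ≤ ∑ j, g j (y j)} =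
      {y : J → Ω | ε * Fintype.card J ≤ ∑ j ∈ Finset.univ, (g j (y j) - ∫ ω, g j ω ∂ν)} := by
    ext y
    simp only [Set.mem_setOf_eq, Finset.sum_sub_distrib]
    constructor <;> intro hh <;> linarith
  rw [hset]
  refine h.trans (le_of_eq ?_)
  congr 1
  simp only [Finset.sum_const, Finset.card_univ, nsmul_eq_mul, mul_one, NNReal.coe_natCast,
    NNReal.coe_one]
  by_cases hc : (Fintype.card J : ℝ) = 0
  · rw [hc]; simp
  · field_simp

end Pool.Agent.Helper671.NC
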