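import Pool.Agent.Helper671.NC.A1
import Pool.Agent.Helper671.NC.A3

set_option autoImplicit false

namespace Pool.Agent.Helper671.NC

open MeasureTheory



section code
variable {C : Type} [Fintype C] {H : ℕ}

/-- sample space of one row -/
abbrev YY (C : Type) (H : ℕ) : Type := Fin 400 → C × Fin (2 ^ (H + 1))

open Classical in
/-- the row attached to a sample -/
noncomputable def rowOf (y : YY C H) (c : C) : ℤ :=
  ∑ d, if (y d).1 = c then (((y d).2 : ℕ) : ℤ) else 0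

lemma sum_abs_rowOf (y : YY C H) : ∑ c, |rowOf y c| ≤ 400 * 2 ^ (H + 1) := by
  classical
  calc ∑ c, |rowOf y c| ≤ ∑ c, ∑ d, (if (y d).1 = c then (((y d).2 : ℕ) : ℤ) else 0) := by
        apply Finset.sum_le_sum
        intro c _
        unfold rowOf
        refine (Finset.abs_sum_le_sum_abs _ _).trans ?_
        apply Finset.sum_le_sum
        intro d _
        split_ifs
        · simp
        · simp
    _ = ∑ d, ∑ c, (if (y d).1 = c then (((y d).2 : ℕ) : ℤ) else 0) := Finset.sum_comm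
    _ = ∑ d, (((y d).2 : ℕ) : ℤ) := by
        apply Finset.sum_congr rfl
        intro d _
        simp
    _ ≤ ∑ d : Fin 400, (2 ^ (H + 1) : ℤ) := by
        apply Finset.sum_le_sum
        intro d _
        have := (y d).2.isLt
        exact_mod_cast this.le
    _ = _ := by simp

/-- the linear form of a sample -/
noncomputable def theta (y : YY C H) (t : C → UnitAddCircle) : UnitAddCircle :=
  ∑ d, ((y d).2 : ℕ) • t (y d).1

lemma sum_rowOf (y : YY C H) (t : C → UnitAddCircle) :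
    ∑ c, rowOf y c • t c = theta y t := by
  classical
  unfold rowOf theta
  simp_rw [Finset.sum_smul]
  rw [Finset.sum_comm]
  apply Finset.sum_congr rfl
  intro d _
  simp [ite_smul]

lemma ee_theta (y : YY C H) (t : C → UnitAddCircle) :
    ee (theta y t) = ∏ d, ee (((y d).2 : ℕ) • t (y d).1) := by
  unfold theta
  rw [ee_sum]

lemma sum_ee_theta (t : C → UnitAddCircle) :
    ∑ y : YY C H, ee (theta y t) = (∑ p : C × Fin (2 ^ (H + 1)), ee ((p.2 : ℕ) • t p.1)) ^ 400 := by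
  simp_rw [ee_theta]
  rw [Fintype.sum_pow]

lemma norm_W_le (t : C → UnitAddCircle)
    (ht : (Fintype.card C : ℝ) / 100 < ((Set.ncard {c | (1 / 2 : ℝ) ^ (H + 1) ≤ ‖t c‖} : ℕ) : ℝ)) :
    ‖∑ p : C × Fin (2 ^ (H + 1)), ee ((p.2 : ℕ) • t p.1)‖ ≤
      (Fintype.card C : ℝ) * 2 ^ (H + 1) * (199 / 200) := by
  classical
  rw [Fintype.sum_prod_type]
  have hK : (0 : ℝ) < 2 ^ (H + 1) := by positivity
  have h1 : ∀ c, ‖∑ κ : Fin (2 ^ (H + 1)), ee ((κ : ℕ) • t c)‖ ≤
      2 ^ (H + 1) - (if (1 / 2 : ℝ) ^ (H + 1) ≤ ‖t c‖ then (2 ^ (H + 1) / 2 : ℝ) else 0) := by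
    intro c
    split_ifs with hc
    · have hpos : 0 < ‖t c‖ := lt_of_lt_of_le (by positivity) hc
      have hne : t c ≠ 0 := norm_pos_iff.1 hpos
      refine (norm_sum_ee_le _ _ hne).trans ?_
      rw [div_le_iff₀ (by positivity)]
      have e : (1 / 2 : ℝ) ^ (H + 1) * 2 ^ (H + 1) = 1 := by
        rw [← mul_pow]; norm_num
      nlinarith
    · rw [sub_zero]
      refine (norm_sum_le _ _).trans ?_
      simp [norm_ee]
  refine (norm_sum_le _ _).trans ?_
  refine (Finset.sum_le_sum fun c _ => h1 c).trans ?_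
  rw [Finset.sum_sub_distrib, ← Finset.sum_filter]
  simp only [Finset.sum_const, nsmul_eq_mul, Finset.card_univ]
  have e2 : (Set.ncard {c | (1 / 2 : ℝ) ^ (H + 1) ≤ ‖t c‖}) =
      (Finset.univ.filter fun c => (1 / 2 : ℝ) ^ (H + 1) ≤ ‖t c‖).card := by
    rw [← Set.ncard_coe_finset]
    congr 1
    ext c
    simp
  rw [e2] at ht
  nlinarith

lemma mean_le (hC : 0 < Fintype.card C) (t : C → UnitAddCircle)
    (ht : (Fintype.card C : ℝ) / 100 < ((Set.ncard {c | (1 / 2 : ℝ) ^ (H + 1) ≤ ‖t c‖} : ℕ) : ℝ)) :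
    (∑ y : YY C H, (ee (theta y t)).re) ≤ 0.14 * (Fintype.card (YY C H) : ℝ) := by
  have h1 := norm_W_le (H := H) t ht
  have hcard : (Fintype.card (YY C H) : ℝ) = ((Fintype.card C : ℝ) * 2 ^ (H + 1)) ^ 400 := by
    rw [Fintype.card_fun, Fintype.card_prod, Fintype.card_fin, Fintype.card_fin]
    push_cast
    ring
  rw [← Complex.re_sum, sum_ee_theta]
  refine (Complex.re_le_norm _).trans ?_
  rw [norm_pow, hcard]
  calc _ ≤ ((Fintype.card C : ℝ) * 2 ^ (H + 1) * (199 / 200)) ^ 400 :=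
        pow_le_pow_left₀ (norm_nonneg _) h1 400
    _ = (199 / 200) ^ 400 * ((Fintype.card C : ℝ) * 2 ^ (H + 1)) ^ 400 := by
        rw [mul_pow]; ring
    _ ≤ _ := by
        apply mul_le_mul_of_nonneg_right _ (by positivity)
        have h2 : (199 / 200 : ℝ) ^ 200 ≤ 0.37 := by norm_num
        have h3 : (199 / 200 : ℝ) ^ 400 = ((199 / 200 : ℝ) ^ 200) ^ 2 := by rw [← pow_mul]
        rw [h3]
        calc ((199 / 200 : ℝ) ^ 200) ^ 2 ≤ 0.37 ^ 2 := pow_le_pow_left₀ (by positivity) h2 2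
          _ ≤ 0.14 := by norm_num

lemma sample {Ω : Type} [Fintype Ω] [Nonempty Ω] {J N : Type} [Fintype J] [Fintype N]
    (f : N → Ω → ℝ) (hb : ∀ n ω, |f n ω| ≤ 1) (good : N → Prop) (m : ℝ)
    (hm : ∀ n, good n → ∑ ω, f n ω ≤ m * Fintype.card Ω) (ε : ℝ) (hε : 0 ≤ ε)
    (hcount : Fintype.card N * Real.exp (-(ε ^ 2 * Fintype.card J / 2)) < 1) :
    ∃ y : J → Ω, ∀ n, good n → ∑ j, f n (y j) < (m + ε) * Fintype.card J := by
  classical
  let _ : MeasurableSpace Ω := ⊤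
  let ν : Measure Ω := (PMF.uniformOfFintype Ω).toMeasure
  have hν : ∀ n, good n → ∫ ω, f n ω ∂ν ≤ m := by
    intro n hn
    have hcard : (0 : ℝ) < Fintype.card Ω := by exact_mod_cast Fintype.card_pos
    rw [PMF.integral_eq_sum]
    simp only [PMF.uniformOfFintype_apply, smul_eq_mul]
    rw [← Finset.mul_sum]
    have e : ((Fintype.card Ω : ENNReal)⁻¹).toReal = (Fintype.card Ω : ℝ)⁻¹ := by simp
    rw [e, inv_mul_le_iff₀ hcard]
    linarith [hm n hn]
  by_contra hcon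
  push Not at hcon
  have hcov : (Set.univ : Set (J → Ω)) ⊆ ⋃ n ∈ (Finset.univ.filter good : Finset N),
      {y | ∑ j : J, ∫ ω, f n ω ∂ν + ε * Fintype.card J ≤ ∑ j, f n (y j)} := by
    intro y _
    obtain ⟨n, hn, hy⟩ := hcon y
    simp only [Set.mem_iUnion, Finset.mem_filter, Finset.mem_univ, true_and, Set.mem_ofPred_eq]
    refine ⟨n, hn, ?_⟩
    have h1 : ∑ j : J, ∫ ω, f n ω ∂ν ≤ m * Fintype.card J := by
      calc ∑ j : J, ∫ ω, f n ω ∂ν ≤ ∑ j : J, m := Finset.sum_le_sum fun _ _ => hν n hn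
        _ = _ := by simp [mul_comm]
    linarith
  have h1 : (1 : ℝ) ≤ ∑ n ∈ (Finset.univ.filter good : Finset N),
      (Measure.pi fun _ : J => ν).real
        {y | ∑ j : J, ∫ ω, f n ω ∂ν + ε * Fintype.card J ≤ ∑ j, f n (y j)} := by
    calc (1 : ℝ) = (Measure.pi fun _ : J => ν).real Set.univ := by simp
      _ ≤ (Measure.pi fun _ : J => ν).real (⋃ n ∈ (Finset.univ.filter good : Finset N),
          {y | ∑ j : J, ∫ ω, f n ω ∂ν + ε * Fintype.card J ≤ ∑ j, f n (y j)}) :=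
        measureReal_mono hcov (measure_ne_top _ _)
      _ ≤ _ := measureReal_biUnion_finset_le _ _
  have h2 : ∑ n ∈ (Finset.univ.filter good : Finset N),
      (Measure.pi fun _ : J => ν).real
        {y | ∑ j : J, ∫ ω, f n ω ∂ν + ε * Fintype.card J ≤ ∑ j, f n (y j)} ≤
      ∑ n ∈ (Finset.univ.filter good : Finset N), Real.exp (-(ε ^ 2 * Fintype.card J / 2)) := by
    apply Finset.sum_le_sum
    intro n _
    exact hoeffding_pi ν (fun _ => f n) (fun _ => Measurable.of_discrete) (fun _ => hb n) ε hε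
  rw [Finset.sum_const, nsmul_eq_mul] at h2
  have h3 : ((Finset.univ.filter good : Finset N).card : ℝ) ≤ Fintype.card N := by
    exact_mod_cast Finset.card_le_univ _
  have h4 := Real.exp_pos (-(ε ^ 2 * Fintype.card J / 2))
  nlinarith

/-- the net -/
noncomputable def netPt {C : Type} (Q : ℕ) (n : C → Fin Q) (c : C) : UnitAddCircle :=
  (((n c : ℕ) : ℝ) / Q : ℝ)

lemma norm_coe_le (x : ℝ) : ‖(x : UnitAddCircle)‖ ≤ |x| := by
  rw [UnitAddCircle.norm_eq]
  have := round_le x 0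
  simpa using this

lemma exists_net {C : Type} (Q : ℕ) (hQ : 0 < Q) (t : C → UnitAddCircle) :
    ∃ n : C → Fin Q, ∀ c, ‖t c - netPt Q n c‖ ≤ 1 / Q := by
  have hQ' : (0 : ℝ) < Q := by exact_mod_cast hQ
  have key : ∀ x : UnitAddCircle, ∃ n : Fin Q, ‖x - ((((n : ℕ) : ℝ) / Q : ℝ) : UnitAddCircle)‖ ≤ 1 / Q := by
    intro x
    obtain ⟨r, rfl⟩ : ∃ r : ℝ, (r : UnitAddCircle) = x := QuotientAddGroup.mk_surjective x
    have hr : (r : UnitAddCircle) = ((Int.fract r : ℝ) : UnitAddCircle) := by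
      conv_lhs => rw [← Int.floor_add_fract r]
      rw [AddCircle.coe_add]
      have : (((⌊r⌋ : ℤ) : ℝ) : UnitAddCircle) = 0 := by
        rw [AddCircle.coe_eq_zero_iff]
        exact ⟨⌊r⌋, by simp⟩
      rw [this, zero_add]
    have hf0 := Int.fract_nonneg r
    have hf1 := Int.fract_lt_one r
    set u := Int.fract r with hu
    have hfl : ⌊u * Q⌋₊ < Q := by
      rw [Nat.floor_lt (by positivity)]
      nlinarith
    refine ⟨⟨⌊u * Q⌋₊, hfl⟩, ?_⟩
    rw [hr, ← AddCircle.coe_sub]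
    refine (norm_coe_le _).trans ?_
    have h1 := Nat.floor_le (show 0 ≤ u * Q by positivity)
    have h2 := Nat.lt_floor_add_one (u * Q)
    simp only
    have h3 : (⌊u * Q⌋₊ : ℝ) / Q ≤ u := by rwa [div_le_iff₀ hQ']
    have h4 : (0 : ℝ) ≤ 1 / Q := by positivity
    rw [abs_le]
    constructor
    · linarith
    · rw [sub_le_iff_le_add, ← add_div, le_div_iff₀ hQ']
      linarith
  choose n hn using fun c => key (t c)
  exact ⟨n, hn⟩

end code


lemma theta_sub {C : Type} {H : ℕ} (y : YY C H) (t t' : C → UnitAddCircle) (δ : ℝ)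
    (h : ∀ c, ‖t c - t' c‖ ≤ δ) : ‖theta y t - theta y t'‖ ≤ 400 * 2 ^ (H + 1) * δ := by
  unfold theta
  rw [← Finset.sum_sub_distrib]
  refine (norm_sum_le _ _).trans ?_
  have hδ : ∀ d : Fin 400, 0 ≤ δ := fun d => (norm_nonneg _).trans (h (y d).1)
  calc ∑ d, ‖((y d).2 : ℕ) • t (y d).1 - ((y d).2 : ℕ) • t' (y d).1‖
      ≤ ∑ d : Fin 400, 2 ^ (H + 1) * δ := by
        apply Finset.sum_le_sum
        intro d _
        rw [← nsmul_sub]
        refine (norm_nsmul_le).trans ?_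
        have h1 : (((y d).2 : ℕ) : ℝ) ≤ 2 ^ (H + 1) := by
          have := (y d).2.isLt
          exact_mod_cast this.le
        exact mul_le_mul h1 (h _) (norm_nonneg _) (by positivity)
    _ = _ := by simp; ring

lemma re_ee_sub (x x' : UnitAddCircle) : (ee x).re ≤ (ee x').re + 2 * Real.pi * ‖x - x'‖ := by
  have h1 : ee x - ee x' = ee x' * (ee (x - x') - 1) := by
    have : ee x = ee x' * ee (x - x') := by
      rw [← ee_add]; congr 1; abel
    rw [this]; ring
  have h2 : ‖ee x - ee x'‖ ≤ 2 * Real.pi * ‖x - x'‖ := by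
    rw [h1, norm_mul, norm_ee, one_mul]
    exact norm_ee_sub_one_le _
  have h3 : (ee x - ee x').re ≤ ‖ee x - ee x'‖ := Complex.re_le_norm _
  rw [Complex.sub_re] at h3
  linarith

set_option maxHeartbeats 4000000 in
theorem exists_code (H : ℕ) (J C : Type) [Fintype J] [Fintype C] (hC : 0 < Fintype.card C)
    (hJ : 100 * (H + 17) * Fintype.card C ≤ Fintype.card J) :
    ∃ R : J → C → ℤ, (∀ j, ∑ c, |R j c| ≤ 400 * 2 ^ (H + 1)) ∧
      ∀ t : C → UnitAddCircle,
        (Fintype.card C : ℝ) / 100 < ((Set.ncard {c | (1 / 2 : ℝ) ^ H < ‖t c‖} : ℕ) : ℝ) →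
        (Fintype.card J : ℝ) / 2 ≤ ∑ j, (1 - (ee (∑ c, R j c • t c)).re) := by
  classical
  have hCne : Nonempty C := Fintype.card_pos_iff.1 hC
  have hKne : Nonempty (Fin (2 ^ (H + 1))) := ⟨⟨0, by positivity⟩⟩
  have hYne : Nonempty (YY C H) := inferInstance
  obtain ⟨Q, hQdef⟩ : ∃ Q : ℕ, Q = 2 ^ (H + 17) := ⟨_, rfl⟩
  have hQ : 0 < Q := by rw [hQdef]; positivity
  have hcount : (Fintype.card (C → Fin Q) : ℝ) *
      Real.exp (-((0.3 : ℝ) ^ 2 * Fintype.card J / 2)) < 1 := by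
    have hM : (1 : ℝ) ≤ ((H + 17) * Fintype.card C : ℕ) := by
      have : 1 ≤ (H + 17) * Fintype.card C := Nat.one_le_iff_ne_zero.2 (by positivity)
      exact_mod_cast this
    have hJ' : 100 * (((H + 17) * Fintype.card C : ℕ) : ℝ) ≤ Fintype.card J := by
      have : 100 * ((H + 17) * Fintype.card C) ≤ Fintype.card J := by linarith [hJ]
      exact_mod_cast this
    have e1 : (Fintype.card (C → Fin Q) : ℝ) =
        Real.exp (Real.log 2 * ((H + 17) * Fintype.card C : ℕ)) := by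
      rw [mul_comm, Real.exp_nat_mul, Real.exp_log (by norm_num)]
      rw [Fintype.card_fun, Fintype.card_fin, hQdef]
      push_cast
      rw [← pow_mul]
    rw [e1, ← Real.exp_add, ← Real.exp_zero]
    apply Real.exp_lt_exp.2
    have hl : Real.log 2 ≤ 0.7 := by linarith [Real.log_two_lt_d9]
    generalize (((H + 17) * Fintype.card C : ℕ) : ℝ) = M at hM hJ'
    have h0 : Real.log 2 * M ≤ 0.7 * M := mul_le_mul_of_nonneg_right hl (by linarith)
    linarith
  obtain ⟨y, hy⟩ := sample (Ω := YY C H) (J := J) (N := C → Fin Q)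
    (fun n ω => (ee (theta ω (netPt Q n))).re)
    (fun n ω => (Complex.abs_re_le_norm _).trans (norm_ee _).le)
    (fun n => (Fintype.card C : ℝ) / 100 <
      ((Set.ncard {c | (1 / 2 : ℝ) ^ (H + 1) ≤ ‖netPt Q n c‖} : ℕ) : ℝ))
    0.14 (fun n hn => mean_le hC _ hn) 0.3 (by norm_num) hcount
  refine ⟨fun j => rowOf (y j), fun j => sum_abs_rowOf _, ?_⟩
  intro t ht
  obtain ⟨n, hn⟩ := exists_net Q hQ t
  have hQ1 : (1 : ℝ) / (Q : ℝ) = (1 / 2) ^ H * (1 / 2) ^ 17 := by
    rw [hQdef]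
    push_cast
    rw [← pow_add, one_div_pow]
  have hpos : (0 : ℝ) < (1 / 2) ^ H := by positivity
  have hgood : (Fintype.card C : ℝ) / 100 <
      ((Set.ncard {c | (1 / 2 : ℝ) ^ (H + 1) ≤ ‖netPt Q n c‖} : ℕ) : ℝ) := by
    refine ht.trans_le ?_
    have : Set.ncard {c | (1 / 2 : ℝ) ^ H < ‖t c‖} ≤
        Set.ncard {c | (1 / 2 : ℝ) ^ (H + 1) ≤ ‖netPt Q n c‖} := by
      apply Set.ncard_le_ncard _ (Set.toFinite _)
      intro c hc
      simp only [Set.mem_ofPred_eq] at *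
      have h1 := hn c
      rw [hQ1] at h1
      have h2 : ‖t c‖ ≤ ‖t c - netPt Q n c‖ + ‖netPt Q n c‖ := by
        have := norm_add_le (t c - netPt Q n c) (netPt Q n c)
        simpa using this
      have h3 : (1 / 2 : ℝ) ^ H * (1 / 2) ^ 17 ≤ (1 / 2 : ℝ) ^ H * (1 / 2) :=
        mul_le_mul_of_nonneg_left (by norm_num) hpos.le
      rw [pow_succ]
      linarith
    exact_mod_cast this
  have h4 := hy n hgood
  have h5 : ∀ j, (ee (theta (y j) t)).re ≤ (ee (theta (y j) (netPt Q n))).re + 0.05 := by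
    intro j
    have h6 := re_ee_sub (theta (y j) t) (theta (y j) (netPt Q n))
    have h7 := theta_sub (y j) t (netPt Q n) _ hn
    rw [hQ1] at h7
    have h8 : (400 : ℝ) * 2 ^ (H + 1) * ((1 / 2) ^ H * (1 / 2) ^ 17) = 400 * (1 / 2) ^ 16 := by
      have : (2 : ℝ) ^ (H + 1) * (1 / 2) ^ H = 2 := by
        rw [pow_succ, mul_assoc, mul_comm (2 : ℝ) ((1 / 2) ^ H), ← mul_assoc, ← mul_pow]
        norm_num
      calc (400 : ℝ) * 2 ^ (H + 1) * ((1 / 2) ^ H * (1 / 2) ^ 17)
          = 400 * (2 ^ (H + 1) * (1 / 2) ^ H) * (1 / 2) ^ 17 := by ring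
        _ = _ := by rw [this]; norm_num
    rw [h8] at h7
    have hpi : Real.pi < 3.15 := Real.pi_lt_d2
    have hpi0 := Real.pi_pos
    have h9 : 2 * Real.pi * ‖theta (y j) t - theta (y j) (netPt Q n)‖ ≤ 0.05 := by
      calc _ ≤ 2 * 3.15 * (400 * (1 / 2 : ℝ) ^ 16) := by
            apply mul_le_mul (by linarith) h7 (norm_nonneg _) (by norm_num)
        _ ≤ 0.05 := by norm_num
    linarith
  have h10 : ∑ j, (ee (theta (y j) t)).re ≤
      ∑ j, (ee (theta (y j) (netPt Q n))).re + 0.05 * Fintype.card J := by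
    calc _ ≤ ∑ j, ((ee (theta (y j) (netPt Q n))).re + 0.05) :=
          Finset.sum_le_sum fun j _ => h5 j
      _ = _ := by
          rw [Finset.sum_add_distrib]; simp [mul_comm]
  simp_rw [sum_rowOf]
  rw [Finset.sum_sub_distrib]
  simp only [Finset.sum_const, Finset.card_univ, nsmul_eq_mul, mul_one]
  have hJ0 : (0 : ℝ) ≤ Fintype.card J := Nat.cast_nonneg _
  linarith

end Pool.Agent.Helper671.NC
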