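import Pool.Agent.Helper671.NC.A1
import Pool.Agent.Helper671.NC.A2
import Pool.Agent.Helper671.NC.A3
import Pool.Agent.Helper671.NC.A4

set_option autoImplicit false

namespace Pool.Agent.Helper671.NC

open MeasureTheory

/-! ## auxiliary lemmas -/

theorem norm_ee_sub_ee (a b : UnitAddCircle) : ‖ee a - ee b‖ ≤ 2 * Real.pi * ‖a - b‖ := by
  have h : ee a - ee b = ee b * (ee (a - b) - 1) := by
    have h2 : ee a = ee b * ee (a - b) := by rw [← ee_add]; congr 1; abel
    rw [h2]; ring
  rw [h, norm_mul, norm_ee, one_mul]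
  exact norm_ee_sub_one_le _

theorem abs_im_ee_sub (a b : UnitAddCircle) :
    |(ee a).im - (ee b).im| ≤ 2 * Real.pi * ‖a - b‖ := by
  have := Complex.abs_im_le_norm (ee a - ee b)
  rw [Complex.sub_im] at this
  exact this.trans (norm_ee_sub_ee a b)

theorem abs_re_ee_sub (a b : UnitAddCircle) :
    |(ee a).re - (ee b).re| ≤ 2 * Real.pi * ‖a - b‖ := by
  have := Complex.abs_re_le_norm (ee a - ee b)
  rw [Complex.sub_re] at this
  exact this.trans (norm_ee_sub_ee a b)

theorem abs_im_ee_le (a : UnitAddCircle) : |(ee a).im| ≤ 1 := by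
  have := Complex.abs_im_le_norm (ee a)
  rwa [norm_ee] at this

theorem exists_net5 (Q : ℕ) (hQ : 0 < Q) (x : UnitAddCircle) :
    ∃ k : Fin Q, ‖x - ((((k : ℕ) : ℝ) / Q : ℝ) : UnitAddCircle)‖ ≤ 1 / Q := by
  induction x using QuotientAddGroup.induction_on with
  | H r =>
    have hQR : (0 : ℝ) < Q := by exact_mod_cast hQ
    have h0 : (((⌊r⌋ : ℤ) : ℝ) : UnitAddCircle) = 0 :=
      (AddCircle.coe_eq_zero_iff (1 : ℝ)).mpr ⟨⌊r⌋, by simp⟩
    have hr : (r : UnitAddCircle) = ((Int.fract r : ℝ) : UnitAddCircle) := by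
      have h1 : r = Int.fract r + ((⌊r⌋ : ℤ) : ℝ) := (Int.fract_add_floor r).symm
      conv_lhs => rw [h1]
      rw [AddCircle.coe_add, h0, add_zero]
    have hk : ⌊Int.fract r * Q⌋₊ < Q := by
      rw [Nat.floor_lt (mul_nonneg (Int.fract_nonneg r) hQR.le)]
      nlinarith [Int.fract_lt_one r]
    refine ⟨⟨⌊Int.fract r * Q⌋₊, hk⟩, ?_⟩
    have hr' : ((r : ℝ) : UnitAddCircle) - ((((⌊Int.fract r * Q⌋₊ : ℕ) : ℝ) / Q : ℝ) : UnitAddCircle)
        = ((Int.fract r - ((⌊Int.fract r * Q⌋₊ : ℕ) : ℝ) / Q : ℝ) : UnitAddCircle) := by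
      rw [hr, AddCircle.coe_sub]
    show ‖((r : ℝ) : UnitAddCircle) - ((((⌊Int.fract r * Q⌋₊ : ℕ) : ℝ) / Q : ℝ) : UnitAddCircle)‖ ≤ 1 / Q
    rw [hr', UnitAddCircle.norm_eq]
    refine (round_le _ 0).trans ?_
    have h1 := Nat.floor_le (mul_nonneg (Int.fract_nonneg r) hQR.le)
    have h2 := Nat.lt_floor_add_one (Int.fract r * Q)
    rw [Int.cast_zero, sub_zero, abs_le]
    have e : Int.fract r = (Int.fract r * Q) / Q := by field_simp
    have e2 : Int.fract r - ((⌊Int.fract r * Q⌋₊ : ℕ) : ℝ) / Q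
        = (Int.fract r * Q - ((⌊Int.fract r * Q⌋₊ : ℕ) : ℝ)) / Q := by field_simp
    rw [e2]
    constructor
    · have : (0 : ℝ) ≤ (Int.fract r * Q - ((⌊Int.fract r * Q⌋₊ : ℕ) : ℝ)) / Q :=
        div_nonneg (by linarith) hQR.le
      have h3 : (0 : ℝ) ≤ 1 / Q := by positivity
      linarith
    · exact div_le_div_of_nonneg_right (by linarith) hQR.le

theorem norm_comb_sub {C : Type} [Fintype C] (r : C → ℤ) (t t' : C → UnitAddCircle) (δ : ℝ)
    (hδ : ∀ c, ‖t c - t' c‖ ≤ δ) :
    ‖(∑ c, r c • t c) - ∑ c, r c • t' c‖ ≤ ((∑ c, |r c| : ℤ) : ℝ) * δ := by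
  rw [← Finset.sum_sub_distrib]
  refine (norm_sum_le _ _).trans ?_
  push_cast
  rw [Finset.sum_mul]
  refine Finset.sum_le_sum fun c _ => ?_
  rw [← smul_sub]
  refine (norm_zsmul_le _ _).trans ?_
  rw [Int.norm_eq_abs]
  exact mul_le_mul_of_nonneg_left (hδ c) (abs_nonneg _)

theorem measurable_twist (θ : UnitAddCircle) :
    Measurable fun x : UnitAddCircle => (ee (x + chi x • θ)).im := by
  refine Complex.measurable_im.comp (measurable_ee.comp ?_)
  refine measurable_id.add ?_
  exact (Measurable.of_discrete (f := fun n : ℤ => n • θ)).comp measurable_chi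


theorem two_pi_mul_le (x a : ℝ) (h0 : 0 ≤ x) (h : x ≤ a) : 2 * Real.pi * x ≤ 6.3 * a := by
  have hpi : Real.pi < 3.15 := Real.pi_lt_d2
  nlinarith [Real.pi_pos]

theorem final_numeric (n S T W m : ℝ) (hn : 0 < n) (h1 : S ≤ T + 0.012 * n + 2 * m)
    (h2 : m ≤ n / 50) (h3 : T < -(W / Real.pi) + 1 / 50 * n) (h4 : -S < 1 / 50 * n)
    (h5 : n / 2 - 0.005 * n ≤ W) : False := by
  have hpi : Real.pi < 3.15 := Real.pi_lt_d2
  have hS3 : 0.15 * n ≤ W / Real.pi := by
    rw [le_div_iff₀ Real.pi_pos]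
    nlinarith
  linarith

theorem pow_exp_bound (H c n : ℕ) (hc : 0 < c) (hn : 100000 * (H + 1) * c ≤ n) :
    (1 + ((2 : ℝ) ^ (H + 20)) ^ c) * Real.exp (-((1 / 50 : ℝ) ^ 2 * n / 2)) ≤
      (1 / 2 : ℝ) ^ (H * c) := by
  have h1 : (1 + ((2 : ℝ) ^ (H + 20)) ^ c) ≤ 2 ^ ((H + 20) * c + 1) := by
    rw [← pow_mul, pow_succ]
    have : (1 : ℝ) ≤ 2 ^ ((H + 20) * c) := one_le_pow₀ (by norm_num)
    linarith
  have h2 : (2 : ℝ) ^ ((H + 20) * c + 1) ≤ 2 ^ ((H + 21) * c) := by
    refine pow_le_pow_right₀ (by norm_num) ?_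
    nlinarith
  have hn' : (100000 : ℝ) * (H + 1) * c ≤ n := by exact_mod_cast hn
  have hlog : Real.log 2 < 0.6931471808 := Real.log_two_lt_d9
  have hlog0 : 0 < Real.log 2 := Real.log_pos (by norm_num)
  have e1 : (2 : ℝ) ^ ((H + 21) * c) = Real.exp (((H : ℝ) + 21) * c * Real.log 2) := by
    rw [← Real.rpow_natCast, Real.rpow_def_of_pos (by norm_num)]
    push_cast
    congr 1; ring
  have e2 : (1 / 2 : ℝ) ^ (H * c) = Real.exp (-((H : ℝ) * c * Real.log 2)) := by
    rw [one_div, inv_pow, Real.exp_neg, ← Real.rpow_natCast, Real.rpow_def_of_pos (by norm_num)]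
    push_cast
    congr 2; ring
  have hc' : (1 : ℝ) ≤ c := by exact_mod_cast hc
  have hH : (0 : ℝ) ≤ H := Nat.cast_nonneg _
  calc (1 + ((2 : ℝ) ^ (H + 20)) ^ c) * Real.exp (-((1 / 50 : ℝ) ^ 2 * n / 2))
      ≤ 2 ^ ((H + 21) * c) * Real.exp (-((1 / 50 : ℝ) ^ 2 * n / 2)) :=
        mul_le_mul_of_nonneg_right (h1.trans h2) (Real.exp_pos _).le
    _ = Real.exp (((H : ℝ) + 21) * c * Real.log 2 + -((1 / 50 : ℝ) ^ 2 * n / 2)) := by
        rw [e1, Real.exp_add]
    _ ≤ Real.exp (-((H : ℝ) * c * Real.log 2)) := by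
        apply Real.exp_le_exp.mpr
        have hh : (2 * (H : ℝ) + 21) * Real.log 2 ≤ 20 * (H + 1) := by nlinarith
        have hcc : ((2 * (H : ℝ) + 21) * Real.log 2) * c ≤ (20 * (H + 1)) * c :=
          mul_le_mul_of_nonneg_right hh (by linarith)
        nlinarith
    _ = _ := e2.symm



set_option maxHeartbeats 2000000 in
theorem exists_gadget (H : ℕ) (J C : Type) [Fintype J] [Fintype C] (hC : 0 < Fintype.card C)
    (hJ : 100000 * (H + 1) * Fintype.card C ≤ Fintype.card J) :
    ∃ (R : J → C → ℤ) (B : Set (J → UnitAddCircle)), MeasurableSet B ∧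
      (Measure.pi fun _ : J => (volume : Measure UnitAddCircle)) Bᶜ ≤
        ENNReal.ofReal ((1 / 2 : ℝ) ^ (H * Fintype.card C)) ∧
      ∀ (z v : J → UnitAddCircle) (t : C → UnitAddCircle), z ∈ B →
        (fun j => z j + v j + chi (z j) • ∑ c, R j c • t c) ∈ B →
        ((Set.ncard {j | (1 / 1000 : ℝ) < ‖v j‖} : ℕ) : ℝ) ≤ (Fintype.card J : ℝ) / 50 →
        ((Set.ncard {c | (1 / 2 : ℝ) ^ H < ‖t c‖} : ℕ) : ℝ) ≤ (Fintype.card C : ℝ) / 100 := by
  classical
  have hJ' : 100 * (H + 17) * Fintype.card C ≤ Fintype.card J := by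
    refine le_trans ?_ hJ
    refine Nat.mul_le_mul_right _ ?_
    omega
  obtain ⟨R, hR1, hR2⟩ := exists_code H J C hC hJ'
  set n := Fintype.card J with hn
  have hnpos : (0 : ℝ) < n := by
    have : 0 < n := by
      have : 0 < 100000 * (H + 1) * Fintype.card C := by positivity
      omega
    exact_mod_cast this
  set Q : ℕ := 2 ^ (H + 20) with hQ
  have hQpos : 0 < Q := by positivity
  let th : (C → UnitAddCircle) → J → UnitAddCircle := fun t j => ∑ c, R j c • t c
  let tn : (C → Fin Q) → C → UnitAddCircle := fun k c => ((((k c : ℕ) : ℝ) / Q : ℝ) : UnitAddCircle)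
  let g0 : J → UnitAddCircle → ℝ := fun _ x => -(ee x).im
  let gk : (C → Fin Q) → J → UnitAddCircle → ℝ := fun k j x => (ee (x + chi x • th (tn k) j)).im
  let E0 : Set (J → UnitAddCircle) :=
    {y | ∑ j, ∫ ω, g0 j ω ∂(volume : Measure UnitAddCircle) + (1 / 50) * Fintype.card J
      ≤ ∑ j, g0 j (y j)}
  let E : (C → Fin Q) → Set (J → UnitAddCircle) := fun k =>
    {y | ∑ j, ∫ ω, gk k j ω ∂(volume : Measure UnitAddCircle) + (1 / 50) * Fintype.card J
      ≤ ∑ j, gk k j (y j)}
  have mg0 : ∀ j, Measurable (g0 j) := fun j =>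
    (Complex.measurable_im.comp measurable_ee).neg
  have mgk : ∀ k j, Measurable (gk k j) := fun k j => measurable_twist _
  have mE0 : MeasurableSet E0 := by
    refine measurableSet_le measurable_const ?_
    exact Finset.measurable_sum _ fun j _ => (mg0 j).comp (measurable_pi_apply j)
  have mE : ∀ k, MeasurableSet (E k) := by
    intro k
    refine measurableSet_le measurable_const ?_
    exact Finset.measurable_sum _ fun j _ => (mgk k j).comp (measurable_pi_apply j)
  have bE0 := hoeffding_pi (volume : Measure UnitAddCircle) g0 mg0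
    (fun j ω => by simp only [g0, abs_neg]; exact abs_im_ee_le _) (1 / 50) (by norm_num)
  have bE := fun k => hoeffding_pi (volume : Measure UnitAddCircle) (gk k) (mgk k)
    (fun j ω => abs_im_ee_le _) (1 / 50) (by norm_num)
  have i0 : ∀ j, ∫ ω, g0 j ω ∂(volume : Measure UnitAddCircle) = 0 := by
    intro j
    have := integral_neg_im_ee 0
    simp only [smul_zero, add_zero, ee_zero, Complex.one_re, sub_self, zero_div] at this
    exact this
  have ik : ∀ k j, ∫ ω, gk k j ω ∂(volume : Measure UnitAddCircle)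
      = -((1 - (ee (th (tn k) j)).re) / Real.pi) := by
    intro k j
    rw [← integral_neg_im_ee, integral_neg, neg_neg]
  refine ⟨R, (E0 ∪ ⋃ k, E k)ᶜ, (mE0.union (MeasurableSet.iUnion mE)).compl, ?_, ?_⟩
  · rw [compl_compl]
    have hexp : (0 : ℝ) ≤ Real.exp (-((1 / 50 : ℝ) ^ 2 * Fintype.card J / 2)) := (Real.exp_pos _).le
    have k0 : (Measure.pi fun _ : J => (volume : Measure UnitAddCircle)) E0 ≤
        ENNReal.ofReal (Real.exp (-((1 / 50 : ℝ) ^ 2 * Fintype.card J / 2))) := by
      rw [← ENNReal.ofReal_toReal (measure_ne_top _ E0)]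
      exact ENNReal.ofReal_le_ofReal bE0
    have k1 : ∀ k, (Measure.pi fun _ : J => (volume : Measure UnitAddCircle)) (E k) ≤
        ENNReal.ofReal (Real.exp (-((1 / 50 : ℝ) ^ 2 * Fintype.card J / 2))) := by
      intro k
      rw [← ENNReal.ofReal_toReal (measure_ne_top _ (E k))]
      exact ENNReal.ofReal_le_ofReal (bE k)
    refine (measure_union_le _ _).trans ?_
    refine (add_le_add k0 (measure_iUnion_le _)).trans ?_
    rw [tsum_fintype]
    refine (add_le_add le_rfl (Finset.sum_le_sum fun k _ => k1 k)).trans ?_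
    rw [Finset.sum_const, Finset.card_univ, Fintype.card_fun, Fintype.card_fin, nsmul_eq_mul,
      ← ENNReal.ofReal_natCast, ← ENNReal.ofReal_mul (by positivity),
      ← ENNReal.ofReal_add hexp (by positivity)]
    apply ENNReal.ofReal_le_ofReal
    have := pow_exp_bound H (Fintype.card C) (Fintype.card J) hC hJ
    refine le_trans (le_of_eq ?_) this
    rw [hQ]
    push_cast
    ring
  · intro z v t hz hz' hv
    by_contra hcon
    push Not at hcon
    have hsum := hR2 t hcon
    choose kk hkk using fun c => exists_net5 Q hQpos (t c)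
    have hz1 : z ∉ E kk := fun h => hz (Or.inr (Set.mem_iUnion.mpr ⟨kk, h⟩))
    have hz2 : (fun j => z j + v j + chi (z j) • ∑ c, R j c • t c) ∉ E0 := fun h => hz' (Or.inl h)
    simp only [E, E0, Set.mem_setOf_eq, not_le] at hz1 hz2
    simp only [i0, ik, Finset.sum_const_zero, zero_add] at hz1 hz2
    have hQR : (Q : ℝ) = 2 ^ (H + 20) := by rw [hQ]; push_cast; ring
    have hθ : ∀ j, ‖th t j - th (tn kk) j‖ ≤ 400 / 2 ^ 19 := by
      intro j
      refine (norm_comb_sub (R j) t (tn kk) (1 / Q) (fun c => hkk c)).trans ?_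
      have h1 : ((∑ c, |R j c| : ℤ) : ℝ) ≤ 400 * 2 ^ (H + 1) := by exact_mod_cast hR1 j
      have h2 : (0 : ℝ) < 1 / Q := by positivity
      calc ((∑ c, |R j c| : ℤ) : ℝ) * (1 / Q) ≤ (400 * 2 ^ (H + 1)) * (1 / Q) :=
            mul_le_mul_of_nonneg_right h1 h2.le
        _ = 400 / 2 ^ 19 := by
            rw [hQR, show H + 20 = (H + 1) + 19 from rfl, pow_add (2 : ℝ) (H + 1) 19]
            field_simp
    have hpi : Real.pi < 3.15 := Real.pi_lt_d2
    have hpi0 : 0 < Real.pi := Real.pi_pos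
    have hpi3 : 3.14 < Real.pi := Real.pi_gt_d2
    have hre : ∀ j, (1 - (ee (th t j)).re) - 0.005 ≤ 1 - (ee (th (tn kk) j)).re := by
      intro j
      have h1 := abs_re_ee_sub (th t j) (th (tn kk) j)
      have h2 := hθ j
      have h3 := norm_nonneg (th t j - th (tn kk) j)
      rw [abs_le] at h1
      have h4 : 2 * Real.pi * ‖th t j - th (tn kk) j‖ ≤ 0.005 := by
        have e1 := two_pi_mul_le _ _ h3 h2
        exact e1.trans (by norm_num)
      linarith [h1.1, h1.2]
    have hstep : ∀ j, (ee (z j + v j + chi (z j) • ∑ c, R j c • t c)).im ≤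
        (ee (z j + chi (z j) • th (tn kk) j)).im + 0.012 +
          (if (1 / 1000 : ℝ) < ‖v j‖ then 2 else 0) := by
      intro j
      have hA : |(ee (z j + chi (z j) • th t j)).im - (ee (z j + chi (z j) • th (tn kk) j)).im|
          ≤ 0.005 := by
        refine (abs_im_ee_sub _ _).trans ?_
        have h1 : z j + chi (z j) • th t j - (z j + chi (z j) • th (tn kk) j)
            = chi (z j) • (th t j - th (tn kk) j) := by
          rw [smul_sub]; abel
        rw [h1]
        have h2 : ‖chi (z j) • (th t j - th (tn kk) j)‖ ≤ ‖th t j - th (tn kk) j‖ := by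
          rcases chi_eq (z j) with h | h
          · rw [h]; simp
          · rw [h]; simp
        have h3 := hθ j
        have h4 := norm_nonneg (chi (z j) • (th t j - th (tn kk) j))
        have e1 := two_pi_mul_le _ _ h4 (h2.trans h3)
        exact e1.trans (by norm_num)
      rw [abs_le] at hA
      have hth : th t j = ∑ c, R j c • t c := rfl
      by_cases hj : (1 / 1000 : ℝ) < ‖v j‖
      · rw [if_pos hj]
        have h1 := abs_im_ee_le (z j + v j + chi (z j) • ∑ c, R j c • t c)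
        have h2 := abs_im_ee_le (z j + chi (z j) • th (tn kk) j)
        rw [abs_le] at h1 h2
        linarith [h1.2, h2.1]
      · rw [if_neg hj]
        have h1 := abs_im_ee_sub (z j + v j + chi (z j) • ∑ c, R j c • t c)
          (z j + chi (z j) • th t j)
        have h2 : z j + v j + chi (z j) • ∑ c, R j c • t c - (z j + chi (z j) • th t j) = v j := by
          rw [hth]; abel
        rw [h2, abs_le] at h1
        have h3 : 2 * Real.pi * ‖v j‖ ≤ 0.007 := by
          have e0 := norm_nonneg (v j)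
          have e1 := two_pi_mul_le _ _ e0 (not_lt.mp hj)
          exact e1.trans (by norm_num)
        linarith [h1.2, hA.2]
    have hS1 : ∑ j, (ee (z j + v j + chi (z j) • ∑ c, R j c • t c)).im ≤
        ∑ j, (ee (z j + chi (z j) • th (tn kk) j)).im + 0.012 * n +
          2 * ((Set.ncard {j | (1 / 1000 : ℝ) < ‖v j‖} : ℕ) : ℝ) := by
      have h1 := Finset.sum_le_sum (s := (Finset.univ : Finset J)) fun j _ => hstep j
      refine h1.trans (le_of_eq ?_)
      rw [Finset.sum_add_distrib, Finset.sum_add_distrib, Finset.sum_const, Finset.card_univ,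
        nsmul_eq_mul, Finset.sum_ite, Finset.sum_const_zero, add_zero, Finset.sum_const,
        nsmul_eq_mul]
      have h2 : Set.ncard {j | (1 / 1000 : ℝ) < ‖v j‖}
          = (Finset.univ.filter fun j => (1 / 1000 : ℝ) < ‖v j‖).card := by
        rw [Set.ncard_eq_toFinset_card']
        congr 1
        ext j; simp
      rw [h2]
      ring
    have hS2 : (n : ℝ) / 2 - 0.005 * n ≤ ∑ j, (1 - (ee (th (tn kk) j)).re) := by
      have h1 := Finset.sum_le_sum (s := (Finset.univ : Finset J)) fun j _ => hre j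
      rw [Finset.sum_sub_distrib, Finset.sum_const, Finset.card_univ, nsmul_eq_mul] at h1
      have h3 : (n : ℝ) / 2 ≤ ∑ j, (1 - (ee (th t j)).re) := hsum
      linarith
    have hz1' : ∑ j, (ee (z j + chi (z j) • th (tn kk) j)).im <
        -((∑ j, (1 - (ee (th (tn kk) j)).re)) / Real.pi) + 1 / 50 * n := by
      have : ∑ j, -((1 - (ee (th (tn kk) j)).re) / Real.pi)
          = -((∑ j, (1 - (ee (th (tn kk) j)).re)) / Real.pi) := by
        rw [Finset.sum_neg_distrib, Finset.sum_div]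
      rw [this] at hz1
      exact hz1
    have hz2' : -∑ j, (ee (z j + v j + chi (z j) • ∑ c, R j c • t c)).im < 1 / 50 * n := by
      have : ∑ j, g0 j (z j + v j + chi (z j) • ∑ c, R j c • t c)
          = -∑ j, (ee (z j + v j + chi (z j) • ∑ c, R j c • t c)).im := by
        simp only [g0, Finset.sum_neg_distrib]
      rw [this] at hz2
      exact hz2
    exact final_numeric n _ _ _ _ hnpos hS1 hv hz1' hz2' hS2

end Pool.Agent.Helper671.NC
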