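import Pool.Agent.Helper671.NC.Defs

set_option autoImplicit false

namespace Pool.Agent.Helper671.NC

open MeasureTheory


theorem vol_good (τ : ℕ) (hτ : 0 < τ) :
    (volume : Measure UnitAddCircle) {u | ‖τ • u‖ ≤ 1 / 1000} = ENNReal.ofReal (1 / 500) := by
  have h1 : MeasurePreserving (fun y : UnitAddCircle => τ • y) volume volume := by
    have h := Measure.measurePreserving_zsmul (volume : Measure UnitAddCircle) (n := (τ : ℤ)) (by exact_mod_cast hτ.ne')
    simpa using h
  have h2 : {u : UnitAddCircle | ‖τ • u‖ ≤ 1 / 1000} =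
      (fun y : UnitAddCircle => τ • y) ⁻¹' (Metric.closedBall 0 (1 / 1000)) := by
    ext u; simp
  rw [h2, h1.measure_preimage Metric.isClosed_closedBall.measurableSet.nullMeasurableSet,
    AddCircle.volume_closedBall]
  norm_num

theorem null_set {Q : Type} (e : ℕ × ℕ → Q) (he : Function.Injective e) (τ : ℕ) (hτ : 0 < τ) :
    Measure.infinitePi (fun _ : Q => (volume : Measure UnitAddCircle))
      {x | ∀ i : ℕ, ((Set.ncard {c : Fin (i + 1) | (1 / 1000 : ℝ) < ‖τ • x (e (i, c))‖} : ℕ) : ℝ) ≤
        ((i : ℝ) + 1) / 50} = 0 := by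
  classical
  set P := Measure.infinitePi (fun _ : Q => (volume : Measure UnitAddCircle)) with hP
  set S := {x : Q → UnitAddCircle | ∀ i : ℕ,
    ((Set.ncard {c : Fin (i + 1) | (1 / 1000 : ℝ) < ‖τ • x (e (i, c))‖} : ℕ) : ℝ) ≤
        ((i : ℝ) + 1) / 50} with hS
  set G : Set UnitAddCircle := {u | ‖τ • u‖ ≤ 1 / 1000} with hG
  have hGm : MeasurableSet G := by
    have : Continuous (fun u : UnitAddCircle => ‖τ • u‖) := by fun_prop
    exact (isClosed_le this continuous_const).measurableSet
  -- boxes
  have hbox : ∀ (i : ℕ) (s : Finset (Fin (i + 1))), P {x | ∀ c ∈ s, x (e (i, c)) ∈ G} =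
      (ENNReal.ofReal (1 / 500)) ^ s.card := by
    intro i s
    have hinj : Function.Injective (fun c : Fin (i + 1) => e (i, (c : ℕ))) := by
      intro c c' h
      have := he h
      simp only [Prod.mk.injEq, true_and] at this
      exact Fin.ext this
    have h1 : {x : Q → UnitAddCircle | ∀ c ∈ s, x (e (i, c)) ∈ G} =
        Set.pi (s.image (fun c : Fin (i + 1) => e (i, (c : ℕ))) : Finset Q) (fun _ => G) := by
      ext x
      simp [Set.mem_pi]
    rw [h1, hP, Measure.infinitePi_pi _ (fun _ _ => hGm), Finset.prod_const,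
      Finset.card_image_of_injective _ hinj, vol_good τ hτ]
  -- bound for each k
  have hk : ∀ k : ℕ, P S ≤ (ENNReal.ofReal (4 / 500)) ^ (k + 1) := by
    intro k
    set i := 2 * k + 1 with hi
    have hsub : S ⊆ ⋃ s ∈ (Finset.univ.filter fun s : Finset (Fin (i + 1)) => k + 1 ≤ s.card),
        {x | ∀ c ∈ s, x (e (i, c)) ∈ G} := by
      intro x hx
      have h1 := hx i
      have h2 : (Finset.univ.filter fun c : Fin (i + 1) => x (e (i, c)) ∈ G) ∈
          (Finset.univ.filter fun s : Finset (Fin (i + 1)) => k + 1 ≤ s.card) := by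
        rw [Finset.mem_filter]
        refine ⟨Finset.mem_univ _, ?_⟩
        have h3 : ({c : Fin (i + 1) | (1 / 1000 : ℝ) < ‖τ • x (e (i, c))‖} : Set (Fin (i + 1))) =
            ((Finset.univ.filter fun c : Fin (i + 1) => ¬ (x (e (i, c)) ∈ G) : Finset (Fin (i + 1))) :
              Set (Fin (i + 1))) := by
          ext c
          simp [hG]
        rw [h3, Set.ncard_coe_finset] at h1
        have h4 := Finset.card_filter_add_card_filter_not (s := (Finset.univ : Finset (Fin (i + 1))))
          (fun c : Fin (i + 1) => x (e (i, c)) ∈ G)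
        rw [Finset.card_univ, Fintype.card_fin] at h4
        have h5 : ((Finset.univ.filter fun c : Fin (i + 1) => x (e (i, c)) ∈ G).card : ℝ) +
            ((Finset.univ.filter fun c : Fin (i + 1) => ¬ (x (e (i, c)) ∈ G)).card : ℝ) = (i : ℝ) + 1 := by
          exact_mod_cast h4
        have h6 : ((k : ℝ) + 1) ≤ ((Finset.univ.filter fun c : Fin (i + 1) => x (e (i, c)) ∈ G).card : ℝ) := by
          have h7 : (i : ℝ) = 2 * k + 1 := by rw [hi]; push_cast; ring
          have h8 : (0 : ℝ) ≤ k := Nat.cast_nonneg k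
          rw [h7] at h1 h5
          linarith
        exact_mod_cast h6
      refine Set.mem_biUnion h2 ?_
      intro c hc
      exact (Finset.mem_filter.mp hc).2
    calc P S ≤ P (⋃ s ∈ (Finset.univ.filter fun s : Finset (Fin (i + 1)) => k + 1 ≤ s.card),
        {x | ∀ c ∈ s, x (e (i, c)) ∈ G}) := measure_mono hsub
      _ ≤ ∑ s ∈ (Finset.univ.filter fun s : Finset (Fin (i + 1)) => k + 1 ≤ s.card),
          P {x | ∀ c ∈ s, x (e (i, c)) ∈ G} := measure_biUnion_finset_le _ _
      _ ≤ ∑ s ∈ (Finset.univ.filter fun s : Finset (Fin (i + 1)) => k + 1 ≤ s.card),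
          (ENNReal.ofReal (1 / 500)) ^ (k + 1) := by
          refine Finset.sum_le_sum fun s hs => ?_
          rw [hbox]
          refine pow_le_pow_of_le_one zero_le ?_ (Finset.mem_filter.mp hs).2
          rw [ENNReal.ofReal_le_one]; norm_num
      _ ≤ ((2 ^ (i + 1) : ℕ) : ENNReal) * (ENNReal.ofReal (1 / 500)) ^ (k + 1) := by
          rw [Finset.sum_const, nsmul_eq_mul]
          refine mul_le_mul' ?_ le_rfl
          have : (Finset.univ.filter fun s : Finset (Fin (i + 1)) => k + 1 ≤ s.card).card ≤ 2 ^ (i + 1) := by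
            refine (Finset.card_filter_le _ _).trans ?_
            rw [Finset.card_univ, Fintype.card_finset, Fintype.card_fin]
          exact_mod_cast this
      _ = (ENNReal.ofReal (4 / 500)) ^ (k + 1) := by
          have h9 : i + 1 = 2 * (k + 1) := by omega
          rw [h9, pow_mul]
          have h10 : ((((2 ^ 2) ^ (k + 1) : ℕ)) : ENNReal) = (ENNReal.ofReal 4) ^ (k + 1) := by
            push_cast
            congr 1
            rw [show (4 : ℝ) = ((4 : ℕ) : ℝ) by norm_num, ENNReal.ofReal_natCast]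
            norm_num
          rw [h10, ← mul_pow, ← ENNReal.ofReal_mul (by norm_num)]
          norm_num
  have ht : Filter.Tendsto (fun k : ℕ => (ENNReal.ofReal (4 / 500)) ^ (k + 1)) Filter.atTop (nhds 0) := by
    have h1 : ENNReal.ofReal (4 / 500) < 1 := by
      rw [ENNReal.ofReal_lt_one]; norm_num
    exact (ENNReal.tendsto_pow_atTop_nhds_zero_of_lt_one h1).comp (Filter.tendsto_add_atTop_nat 1)
  exact le_antisymm (ge_of_tendsto' ht hk) zero_le

end Pool.Agent.Helper671.NC
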