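import Pool.Agent.Helper671.NC.Defs

set_option autoImplicit false

namespace Pool.Agent.Helper671.NC

open MeasureTheory


open Classical in
/-- resampling map -/
noncomputable def resamp {Q : Type} (S : Set Q) (p : (Q → UnitAddCircle) × (Q → UnitAddCircle)) :
    Q → UnitAddCircle := fun q => if q ∈ S then p.2 q else p.1 q

theorem measurable_resamp {Q : Type} (S : Set Q) : Measurable (resamp S) := by
  classical
  rw [measurable_pi_iff]
  intro q
  unfold resamp
  by_cases hq : q ∈ S
  · simp only [hq, if_true]
    exact (measurable_pi_apply q).comp measurable_snd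
  · simp only [hq, if_false]
    exact (measurable_pi_apply q).comp measurable_fst

theorem resamp_measurePreserving {Q : Type} (S : Set Q) :
    MeasurePreserving (resamp S)
      ((Measure.infinitePi (fun _ : Q => (volume : Measure UnitAddCircle))).prod
        (Measure.infinitePi (fun _ : Q => (volume : Measure UnitAddCircle))))
      (Measure.infinitePi (fun _ : Q => (volume : Measure UnitAddCircle))) := by
  classical
  refine ⟨measurable_resamp S, ?_⟩
  apply Measure.eq_infinitePi
  intro s t ht
  have hmeas : MeasurableSet (Set.pi (s : Set Q) t) :=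
    .pi s.countable_toSet fun i _ => ht i
  rw [Measure.map_apply (measurable_resamp S) hmeas]
  have hpre : resamp S ⁻¹' (Set.pi (s : Set Q) t) =
      (Set.pi ((s.filter (fun q => ¬ q ∈ S) : Finset Q) : Set Q) t) ×ˢ
      (Set.pi ((s.filter (fun q => q ∈ S) : Finset Q) : Set Q) t) := by
    ext p
    simp only [Set.mem_preimage, Set.mem_pi, Set.mem_prod, Finset.mem_coe, Finset.mem_filter, resamp]
    constructor
    · intro h
      refine ⟨fun i hi => ?_, fun i hi => ?_⟩
      · have := h i hi.1
        rwa [if_neg hi.2] at this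
      · have := h i hi.1
        rwa [if_pos hi.2] at this
    · rintro ⟨h1, h2⟩ i hi
      by_cases hS : i ∈ S
      · rw [if_pos hS]; exact h2 i ⟨hi, hS⟩
      · rw [if_neg hS]; exact h1 i ⟨hi, hS⟩
  rw [hpre, Measure.prod_prod, Measure.infinitePi_pi _ (fun i _ => ht i),
    Measure.infinitePi_pi _ (fun i _ => ht i), mul_comm]
  exact Finset.prod_filter_mul_prod_filter_not s (fun q => q ∈ S) _

theorem translate_infinitePi {Q : Type} (v : Q → UnitAddCircle) :
    (Measure.infinitePi (fun _ : Q => (volume : Measure UnitAddCircle))).map (fun w => w + v) =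
      Measure.infinitePi (fun _ : Q => (volume : Measure UnitAddCircle)) := by
  have h := Measure.infinitePi_map_pi (μ := fun _ : Q => (volume : Measure UnitAddCircle))
    (f := fun q (x : UnitAddCircle) => x + v q) (fun q => measurable_id.add_const _)
  have h2 : (fun (x : Q → UnitAddCircle) (i : Q) => x i + v i) = fun w => w + v := rfl
  rw [h2] at h
  rw [h]
  congr 1
  funext q
  exact Measure.IsAddRightInvariant.map_add_right_eq_self (v q)

theorem measurable_pi_add {Q : Type} {α : Type} [MeasurableSpace α] (f g : α → (Q → UnitAddCircle))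
    (hf : Measurable f) (hg : Measurable g) : Measurable (fun a => f a + g a) := by
  rw [measurable_pi_iff]
  intro q
  exact ((measurable_pi_apply q).comp hf).add ((measurable_pi_apply q).comp hg)

theorem shear_measurePreserving {Q : Type} (S : Set Q)
    (h : (Q → UnitAddCircle) → (Q → UnitAddCircle)) (hm : Measurable h)
    (h0 : ∀ x, ∀ q ∉ S, h x q = 0) (hd : ∀ x y, (∀ q ∉ S, x q = y q) → h x = h y) :
    MeasurePreserving (fun x => x + h x)
      (Measure.infinitePi (fun _ : Q => (volume : Measure UnitAddCircle)))
      (Measure.infinitePi (fun _ : Q => (volume : Measure UnitAddCircle))) := by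
  classical
  set μ := Measure.infinitePi (fun _ : Q => (volume : Measure UnitAddCircle)) with hμ
  have hΦ : Measurable (fun x : Q → UnitAddCircle => x + h x) :=
    measurable_pi_add _ _ measurable_id hm
  refine ⟨hΦ, ?_⟩
  have hr := resamp_measurePreserving S
  rw [← hμ] at hr
  -- skew product
  have hskew : MeasurePreserving
      (fun p : (Q → UnitAddCircle) × (Q → UnitAddCircle) => (id p.1, (fun (x w : Q → UnitAddCircle) => w + h x) p.1 p.2))
      (μ.prod μ) (μ.prod μ) := by
    refine (MeasurePreserving.id μ).skew_product (g := fun (x w : Q → UnitAddCircle) => w + h x) ?_ ?_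
    · exact measurable_pi_add _ _ measurable_snd (hm.comp measurable_fst)
    · exact ae_of_all _ fun x => translate_infinitePi (h x)
  have hcomp := hr.comp hskew
  have key : (fun x : Q → UnitAddCircle => x + h x) ∘ resamp S =
      resamp S ∘ (fun p : (Q → UnitAddCircle) × (Q → UnitAddCircle) => (id p.1, (fun (x w : Q → UnitAddCircle) => w + h x) p.1 p.2)) := by
    funext p
    have e1 : h (resamp S p) = h p.1 := by
      apply hd
      intro q hq
      simp [resamp, hq]
    simp only [Function.comp, e1]
    funext q
    by_cases hq : q ∈ S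
    · simp [resamp, hq]
    · simp [resamp, hq, h0 _ q hq]
  calc μ.map (fun x => x + h x) = ((μ.prod μ).map (resamp S)).map (fun x => x + h x) := by rw [hr.map_eq]
    _ = (μ.prod μ).map ((fun x : Q → UnitAddCircle => x + h x) ∘ resamp S) := by
        rw [Measure.map_map hΦ hr.measurable]
    _ = μ := by rw [key, hcomp.map_eq]

theorem indep_inter {Q : Type} (S : Set Q) (A₀ A₁ : Set (Q → UnitAddCircle))
    (hA₀ : MeasurableSet A₀) (hA₁ : MeasurableSet A₁)
    (h0 : ∀ x y : Q → UnitAddCircle, (∀ q ∈ S, x q = y q) → x ∈ A₀ → y ∈ A₀)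
    (h1 : ∀ x y : Q → UnitAddCircle, (∀ q ∉ S, x q = y q) → x ∈ A₁ → y ∈ A₁) :
    Measure.infinitePi (fun _ : Q => (volume : Measure UnitAddCircle)) (A₀ ∩ A₁) =
      Measure.infinitePi (fun _ : Q => (volume : Measure UnitAddCircle)) A₀ *
      Measure.infinitePi (fun _ : Q => (volume : Measure UnitAddCircle)) A₁ := by
  classical
  set μ := Measure.infinitePi (fun _ : Q => (volume : Measure UnitAddCircle)) with hμ
  have hr := resamp_measurePreserving S
  rw [← hμ] at hr
  have hpre : resamp S ⁻¹' (A₀ ∩ A₁) = A₁ ×ˢ A₀ := by
    ext p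
    simp only [Set.mem_preimage, Set.mem_inter_iff, Set.mem_prod]
    have e0 : resamp S p ∈ A₀ ↔ p.2 ∈ A₀ := by
      constructor
      · exact h0 _ _ (fun q hq => by simp [resamp, hq])
      · exact h0 _ _ (fun q hq => by simp [resamp, hq])
    have e1 : resamp S p ∈ A₁ ↔ p.1 ∈ A₁ := by
      constructor
      · exact h1 _ _ (fun q hq => by simp [resamp, hq])
      · exact h1 _ _ (fun q hq => by simp [resamp, hq])
    rw [e0, e1, and_comm]
  rw [← hr.measure_preimage (hA₀.inter hA₁).nullMeasurableSet, hpre, Measure.prod_prod, mul_comm]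

end Pool.Agent.Helper671.NC
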