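import Pool.Agent.Helper671.NC.Dyn

set_option autoImplicit false

namespace Pool.Agent.Helper671.NC

open MeasureTheory

section deduce

variable {L : ℕ} (H : ℕ)
variable (R : ∀ (i : ℕ) (a : Fin L), Jn L i a → Fin (i + 2) → ℤ)
variable (B : ∀ (i : ℕ) (a : Fin L), Set (Jn L i a → UnitAddCircle))

/-- the base condition -/
def Abase (L H : ℕ) : Set (Xs L) :=
  {x | ∀ j : Fin L × Fin 2, ‖x (some j, 0, j.1, 0)‖ ≤ (1 / 2 : ℝ) ^ (H + 1)}

/-- the conditions at higher levels -/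
def Ahigh : Set (Xs L) :=
  {x | ∀ (j : Fin L × Fin 2) (i : ℕ),
    (fun p : Jn L i j.1 => x (some j, i, (p.1 : Fin L), (p.2 : ℕ))) ∈ B i j.1}

/-- the gadget property -/
def Good : Prop := ∀ (i : ℕ) (a : Fin L) (z v : Jn L i a → UnitAddCircle)
  (t : Fin (i + 2) → UnitAddCircle), z ∈ B i a →
    (fun p => z p + v p + chi (z p) • ∑ c, R i a p c • t c) ∈ B i a →
    ((Set.ncard {p | (1 / 1000 : ℝ) < ‖v p‖} : ℕ) : ℝ) ≤ (Fintype.card (Jn L i a) : ℝ) / 50 →
    ((Set.ncard {c | (1 / 2 : ℝ) ^ H < ‖t c‖} : ℕ) : ℝ) ≤ ((i : ℝ) + 2) / 100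

/-- the times -/
def tau (m n : ℕ) (j : Fin L × Fin 2) : ℕ := m + (2 * (j.1 : ℕ) + (j.2 : ℕ) + 1) * n

theorem all_small (hL : (4 * (L : ℝ) + 1) * (1 / 2) ^ H ≤ 1 / 1000) (m n : ℕ) (a : Fin L)
    (ψ : UnitAddCircle) (h0 : ‖tau m n (a, 0) • ψ‖ ≤ (1 / 2 : ℝ) ^ H)
    (h1 : ‖tau m n (a, 1) • ψ‖ ≤ (1 / 2 : ℝ) ^ H) (j : Fin L × Fin 2) :
    ‖tau m n j • ψ‖ ≤ 1 / 1000 := by
  have hn : n • ψ = tau m n (a, 1) • ψ - tau m n (a, 0) • ψ := by
    rw [eq_sub_iff_add_eq, ← add_nsmul]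
    congr 1
    unfold tau
    simp
    ring
  have h2 : ‖n • ψ‖ ≤ 2 * (1 / 2 : ℝ) ^ H := by
    rw [hn]
    refine (norm_sub_le _ _).trans ?_
    linarith
  have h3 : tau m n j • ψ = tau m n (a, 0) • ψ +
      ((2 * (j.1 : ℤ) + (j.2 : ℤ)) - 2 * (a : ℤ)) • (n • ψ) := by
    rw [← natCast_zsmul ψ n, ← natCast_zsmul ψ (tau m n j), ← natCast_zsmul ψ (tau m n (a, 0)),
      smul_smul, ← add_zsmul]
    congr 1
    unfold tau
    push_cast
    simp
    ring
  have h4 : |((2 * (j.1 : ℤ) + (j.2 : ℤ)) - 2 * (a : ℤ) : ℤ)| ≤ 2 * (L : ℤ) := by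
    have := j.1.2
    have := j.2.2
    have := a.2
    rw [abs_le]
    constructor <;> omega
  have h5 : (|((2 * (j.1 : ℤ) + (j.2 : ℤ)) - 2 * (a : ℤ) : ℤ)| : ℝ) ≤ 2 * (L : ℝ) := by
    have : ((|((2 * (j.1 : ℤ) + (j.2 : ℤ)) - 2 * (a : ℤ) : ℤ)| : ℤ) : ℝ) ≤ ((2 * (L : ℤ) : ℤ) : ℝ) := by
      exact_mod_cast h4
    push_cast at this ⊢
    exact this
  rw [h3]
  refine (norm_add_le _ _).trans ?_
  have h6 : ‖((2 * (j.1 : ℤ) + (j.2 : ℤ)) - 2 * (a : ℤ)) • (n • ψ)‖ ≤
      (2 * (L : ℝ)) * (2 * (1 / 2 : ℝ) ^ H) := by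
    refine (norm_zsmul_le _ _).trans ?_
    refine mul_le_mul ?_ h2 (norm_nonneg _) (by positivity)
    rw [Int.norm_eq_abs]
    exact h5
  linarith

theorem tau_pos {m n : ℕ} (hm : 0 < m) (j : Fin L × Fin 2) : 0 < tau m n j := by
  unfold tau; omega

/-- corrupted indices -/
def bad (x : Xs L) (m n i : ℕ) (a : Fin L) : Set (Fin (i + 1)) :=
  {c | ∃ j : Fin L × Fin 2, (1 / 1000 : ℝ) < ‖tau m n j • x (none, i, a, (c : ℕ))‖}

theorem deduce (hL : (4 * (L : ℝ) + 1) * (1 / 2) ^ H ≤ 1 / 1000) (hG : Good H R B)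
    (m n : ℕ) (x : Xs L) (hx0 : x ∈ Abase L H) (hx1 : x ∈ Ahigh B)
    (hT0 : ∀ j : Fin L × Fin 2, ((Tj R j) ^ (tau m n j)) x ∈ Abase L H)
    (hT1 : ∀ j : Fin L × Fin 2, ((Tj R j) ^ (tau m n j)) x ∈ Ahigh B) :
    ∀ (i : ℕ) (a : Fin L), (((bad x m n i a).ncard : ℕ) : ℝ) ≤ ((i : ℝ) + 1) / 50 := by
  intro i
  induction i with
  | zero =>
    intro a
    have h1 : ∀ e : Fin 2, ‖tau m n (a, e) • x (none, 0, a, 0)‖ ≤ (1 / 2 : ℝ) ^ H := by
      intro e
      have h2 := hx0 (a, e)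
      have h3 := hT0 (a, e) (a, e)
      rw [Tj_pow_apply] at h3
      have h4 : hk R (a, e) x (none, 0, a, 0) = 0 := by
        unfold hk
        rw [dif_neg]
        rintro ⟨-, h5, -⟩
        exact h5 rfl
      simp only at h2 h3
      rw [h4, add_zero] at h3
      have h5 : tau m n (a, e) • x (none, 0, a, 0) =
          (x (some (a, e), 0, a, 0) + tau m n (a, e) • x (none, 0, a, 0)) -
          x (some (a, e), 0, a, 0) := by abel
      rw [h5]
      refine (norm_sub_le _ _).trans ?_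
      have h6 : (1 / 2 : ℝ) ^ H = (1 / 2 : ℝ) ^ (H + 1) + (1 / 2 : ℝ) ^ (H + 1) := by
        rw [pow_succ]; ring
      rw [h6]
      exact add_le_add h3 h2
    have h2 : bad x m n 0 a = ∅ := by
      rw [Set.eq_empty_iff_forall_notMem]
      rintro c ⟨j, hj⟩
      have hc : (c : ℕ) = 0 := by omega
      rw [hc] at hj
      have := all_small H hL m n a _ (h1 0) (h1 1) j
      linarith
    rw [h2]
    simp
  | succ i ih =>
    intro a
    have key : ∀ e : Fin 2, ((Set.ncard {c : Fin (i + 2) | (1 / 2 : ℝ) ^ H <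
        ‖tau m n (a, e) • x (none, i + 1, a, (c : ℕ))‖} : ℕ) : ℝ) ≤ ((i : ℝ) + 2) / 100 := by
      intro e
      refine hG i a (fun p : Jn L i a => x (some (a, e), i, (p.1 : Fin L), (p.2 : ℕ)))
        (fun p => tau m n (a, e) • x (none, i, (p.1 : Fin L), (p.2 : ℕ)))
        (fun c => tau m n (a, e) • x (none, i + 1, a, (c : ℕ))) (hx1 (a, e) i) ?_ ?_
      · have h1 := hT1 (a, e) (a, e) i
        simp only at h1
        convert h1 using 1
        funext p
        rw [Tj_pow_apply]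
        unfold hk
        rw [dif_pos ⟨rfl, p.1.2, p.2.2⟩]
        have h6 : ∀ f : Fin (i + 2) → UnitAddCircle, ∀ (k : ℕ) (l : ℤ),
            k • l • ∑ c, R i a p c • f c = l • ∑ c, R i a p c • k • f c := by
          intro f k l
          rw [smul_comm, Finset.smul_sum]
          congr 1
          refine Finset.sum_congr rfl fun c _ => ?_
          rw [smul_comm]
        rw [smul_add, ← add_assoc]
        congr 1
        exact (h6 _ _ _).symm
      · have h1 : {p : Jn L i a | (1 / 1000 : ℝ) <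
            ‖tau m n (a, e) • x (none, i, (p.1 : Fin L), (p.2 : ℕ))‖} ⊆
            ⋃ b : {b : Fin L // b ≠ a}, (fun c => (b, c)) '' (bad x m n i b) := by
          intro p hp
          rw [Set.mem_iUnion]
          exact ⟨p.1, p.2, ⟨(a, e), hp⟩, rfl⟩
        have h2 : ((Set.ncard {p : Jn L i a | (1 / 1000 : ℝ) <
            ‖tau m n (a, e) • x (none, i, (p.1 : Fin L), (p.2 : ℕ))‖} : ℕ) : ℝ) ≤
            ∑ b : {b : Fin L // b ≠ a}, (((bad x m n i b).ncard : ℕ) : ℝ) := by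
          have h3 := Set.ncard_le_ncard h1 (Set.toFinite _)
          have h4 : (⋃ b : {b : Fin L // b ≠ a}, (fun c => (b, c)) '' (bad x m n i b)).ncard ≤
              ∑ b : {b : Fin L // b ≠ a}, ((fun c : Fin (i + 1) => (b, c)) '' (bad x m n i b)).ncard :=
            Set.ncard_iUnion_le_of_fintype _
          have h5 : ∀ b : {b : Fin L // b ≠ a},
              ((fun c : Fin (i + 1) => (b, c)) '' (bad x m n i b)).ncard = (bad x m n i b).ncard := by
            intro b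
            apply Set.ncard_image_of_injective
            intro c c' hcc
            exact (Prod.mk.inj hcc).2
          simp only [h5] at h4
          exact_mod_cast h3.trans h4
        refine h2.trans ?_
        have h7 : ∑ b : {b : Fin L // b ≠ a}, (((bad x m n i (b : Fin L)).ncard : ℕ) : ℝ) ≤
            ∑ b : {b : Fin L // b ≠ a}, ((i : ℝ) + 1) / 50 :=
          Finset.sum_le_sum fun b _ => ih (b : Fin L)
        refine h7.trans ?_
        rw [Finset.sum_const, Finset.card_univ, Fintype.card_prod, Fintype.card_fin, nsmul_eq_mul]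
        push_cast
        apply le_of_eq
        ring
    have h1 : bad x m n (i + 1) a ⊆
        {c : Fin (i + 2) | (1 / 2 : ℝ) ^ H < ‖tau m n (a, 0) • x (none, i + 1, a, (c : ℕ))‖} ∪
        {c : Fin (i + 2) | (1 / 2 : ℝ) ^ H < ‖tau m n (a, 1) • x (none, i + 1, a, (c : ℕ))‖} := by
      rintro c ⟨j, hj⟩
      by_contra hc
      rw [Set.mem_union, not_or] at hc
      obtain ⟨hc0, hc1⟩ := hc
      simp only [Set.mem_ofPred_eq, not_lt] at hc0 hc1
      have := all_small H hL m n a _ hc0 hc1 j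
      linarith
    have h2 := (Set.ncard_le_ncard h1 (Set.toFinite _)).trans (Set.ncard_union_le _ _)
    have h3 : (((bad x m n (i + 1) a).ncard : ℕ) : ℝ) ≤
        ((Set.ncard {c : Fin (i + 2) | (1 / 2 : ℝ) ^ H <
          ‖tau m n (a, 0) • x (none, i + 1, a, (c : ℕ))‖} : ℕ) : ℝ) +
        ((Set.ncard {c : Fin (i + 2) | (1 / 2 : ℝ) ^ H <
          ‖tau m n (a, 1) • x (none, i + 1, a, (c : ℕ))‖} : ℕ) : ℝ) := by
      exact_mod_cast h2
    have h4 := key 0
    have h5 := key 1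
    push_cast
    linarith

end deduce

end Pool.Agent.Helper671.NC
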