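import Mathlib

set_option autoImplicit false

namespace Pool.Agent.Helper671.NC

open MeasureTheory

/-- the character `x ↦ exp (2 π i x)` of the circle `ℝ / ℤ` -/
noncomputable def ee (x : UnitAddCircle) : ℂ := (AddCircle.toCircle x : ℂ)

/-- indicator function of the open upper half circle -/
noncomputable def chi (x : UnitAddCircle) : ℤ := by
  classical exact if 0 < (ee x).im then 1 else 0

theorem ee_zero : ee 0 = 1 := by simp [ee]

theorem ee_add (x y : UnitAddCircle) : ee (x + y) = ee x * ee y := by
  simp [ee, AddCircle.toCircle_add]

theorem ee_neg (x : UnitAddCircle) : ee (-x) = (ee x)⁻¹ := by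
  simp [ee, AddCircle.toCircle_neg]

theorem ee_zsmul (n : ℤ) (x : UnitAddCircle) : ee (n • x) = ee x ^ n := by
  simp [ee, AddCircle.toCircle_zsmul]

theorem ee_nsmul (n : ℕ) (x : UnitAddCircle) : ee (n • x) = ee x ^ n := by
  simp [ee, AddCircle.toCircle_nsmul]

theorem ee_sum {ι : Type} (s : Finset ι) (f : ι → UnitAddCircle) :
    ee (∑ i ∈ s, f i) = ∏ i ∈ s, ee (f i) := by
  classical
  induction s using Finset.induction_on with
  | empty => simp [ee_zero]
  | insert a s ha ih => rw [Finset.sum_insert ha, Finset.prod_insert ha, ee_add, ih]

theorem norm_ee (x : UnitAddCircle) : ‖ee x‖ = 1 := Circle.norm_coe _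

theorem continuous_ee : Continuous ee := by
  unfold ee
  exact continuous_subtype_val.comp AddCircle.continuous_toCircle

theorem measurable_ee : Measurable ee := continuous_ee.measurable

theorem ee_coe (x : ℝ) : ee (x : UnitAddCircle) = Complex.exp (2 * Real.pi * x * Complex.I) := by
  unfold ee
  rw [AddCircle.toCircle_apply_mk, Circle.coe_exp]
  congr 1
  push_cast
  ring

theorem measurable_chi : Measurable chi := by
  classical
  unfold chi
  refine Measurable.ite ?_ measurable_const measurable_const
  exact measurableSet_lt measurable_const (Complex.measurable_im.comp measurable_ee)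

theorem chi_eq (x : UnitAddCircle) : chi x = 0 ∨ chi x = 1 := by
  classical
  unfold chi
  split_ifs
  · right; rfl
  · left; rfl

instance instProbUnit : IsProbabilityMeasure (volume : Measure UnitAddCircle) := by
  constructor
  rw [UnitAddCircle.measure_univ]

end Pool.Agent.Helper671.NC
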