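import Pool.Agent.Helper671.NC.Defs

set_option autoImplicit false

namespace Pool.Agent.Helper671.NC

open MeasureTheory

/-! ### shears as permutations -/

/-- data of a shear -/
structure Shear (Q : Type) where
  S : Set Q
  h : (Q → UnitAddCircle) → (Q → UnitAddCircle)
  hm : Measurable h
  h0 : ∀ x, ∀ q ∉ S, h x q = 0
  hd : ∀ x y, (∀ q ∉ S, x q = y q) → h x = h y

namespace Shear

variable {Q : Type} (σ : Shear Q)

theorem h_add (x : Q → UnitAddCircle) : σ.h (x + σ.h x) = σ.h x := by
  apply σ.hd
  intro q hq
  simp [σ.h0 x q hq]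

theorem h_sub (x : Q → UnitAddCircle) : σ.h (x - σ.h x) = σ.h x := by
  apply σ.hd
  intro q hq
  simp [σ.h0 x q hq]

/-- the permutation `x ↦ x + h x` -/
noncomputable def perm : Equiv.Perm (Q → UnitAddCircle) where
  toFun x := x + σ.h x
  invFun x := x - σ.h x
  left_inv x := by
    show x + σ.h x - σ.h (x + σ.h x) = x
    rw [σ.h_add]; simp
  right_inv x := by
    show x - σ.h x + σ.h (x - σ.h x) = x
    rw [σ.h_sub]; simp

theorem perm_apply (x : Q → UnitAddCircle) : σ.perm x = x + σ.h x := rfl

theorem perm_symm_apply (x : Q → UnitAddCircle) : σ.perm.symm x = x - σ.h x := rfl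

theorem perm_inv_apply (x : Q → UnitAddCircle) : σ.perm⁻¹ x = x - σ.h x := rfl

theorem measurable_perm : Measurable σ.perm := by
  have := measurable_id.add σ.hm
  exact this

theorem measurable_perm_symm : Measurable σ.perm.symm := by
  have := measurable_id.sub σ.hm
  exact this

end Shear

/-! ### the system -/

section system

variable (L : ℕ)

/-- index set of the coordinates -/
abbrev Idx : Type := Option (Fin L × Fin 2) × ℕ × Fin L × ℕ

/-- the space -/
abbrev Xs : Type := Idx L → UnitAddCircle

/-- input indices of level `i` for the pair `a` -/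
abbrev Jn (i : ℕ) (a : Fin L) : Type := {b : Fin L // b ≠ a} × Fin (i + 1)

variable {L}
variable (R : ∀ (i : ℕ) (a : Fin L), Jn L i a → Fin (i + 2) → ℤ)

/-- displacement of the frequencies -/
noncomputable def hk (j : Fin L × Fin 2) (x : Xs L) (q : Idx L) : UnitAddCircle :=
  if h : q.1 = none ∧ q.2.2.1 ≠ j.1 ∧ q.2.2.2 < q.2.1 + 1 then
    chi (x (some j, q.2)) •
      ∑ c' : Fin (q.2.1 + 2), R q.2.1 j.1 (⟨q.2.2.1, h.2.1⟩, ⟨q.2.2.2, h.2.2⟩) c' •
        x (none, q.2.1 + 1, j.1, c')
  else 0

/-- the first shear -/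
noncomputable def shK (j : Fin L × Fin 2) : Shear (Idx L) where
  S := {q | q.1 = none ∧ q.2.2.1 ≠ j.1}
  h := fun x q => hk R j x q
  hm := by
    rw [measurable_pi_iff]
    intro q
    unfold hk
    split_ifs with h
    · have h1 : Measurable fun x : Xs L => ∑ c' : Fin (q.2.1 + 2),
          R q.2.1 j.1 (⟨q.2.2.1, h.2.1⟩, ⟨q.2.2.2, h.2.2⟩) c' • x (none, q.2.1 + 1, j.1, c') := by
        apply Finset.measurable_sum
        intro c' _
        exact (continuous_zsmul _).measurable.comp (measurable_pi_apply _)
      have h2 : Measurable fun x : Xs L => chi (x (some j, q.2)) :=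
        measurable_chi.comp (measurable_pi_apply _)
      have h3 : (fun x : Xs L => chi (x (some j, q.2)) • ∑ c' : Fin (q.2.1 + 2),
          R q.2.1 j.1 (⟨q.2.2.1, h.2.1⟩, ⟨q.2.2.2, h.2.2⟩) c' • x (none, q.2.1 + 1, j.1, c')) =
          fun x : Xs L => if chi (x (some j, q.2)) = 1 then ∑ c' : Fin (q.2.1 + 2),
          R q.2.1 j.1 (⟨q.2.2.1, h.2.1⟩, ⟨q.2.2.2, h.2.2⟩) c' • x (none, q.2.1 + 1, j.1, c')
          else 0 := by
        funext x
        rcases chi_eq (x (some j, q.2)) with h4 | h4
        · rw [h4]; simp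
        · rw [h4]; simp
      rw [h3]
      exact Measurable.ite (h2 (measurableSet_singleton 1)) h1 measurable_const
    · exact measurable_const
  h0 := by
    intro x q hq
    unfold hk
    rw [dif_neg]
    intro h
    exact hq ⟨h.1, h.2.1⟩
  hd := by
    intro x y hxy
    funext q
    unfold hk
    split_ifs with h
    · have h1 : x (some j, q.2) = y (some j, q.2) := hxy _ (by simp)
      rw [h1]
      congr 1
      refine Finset.sum_congr rfl fun c' _ => ?_
      rw [hxy (none, q.2.1 + 1, j.1, (c' : ℕ)) (by simp)]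
    · rfl

/-- the second shear: rotation of the phases of `j` by the frequencies -/
noncomputable def shR (j : Fin L × Fin 2) : Shear (Idx L) where
  S := {q | q.1 = some j}
  h := fun x q => by classical exact if q.1 = some j then x (none, q.2) else 0
  hm := by
    classical
    rw [measurable_pi_iff]
    intro q
    split_ifs with h
    · exact measurable_pi_apply _
    · exact measurable_const
  h0 := by
    classical
    intro x q hq
    exact if_neg hq
  hd := by
    classical
    intro x y hxy
    funext q
    split_ifs with h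
    · exact hxy (none, q.2) (by simp)
    · rfl

/-- the transformations -/
noncomputable def Tj (j : Fin L × Fin 2) : Equiv.Perm (Xs L) :=
  (shK R j).perm⁻¹ * (shR j).perm * (shK R j).perm

theorem shR_pow (j : Fin L × Fin 2) (n : ℕ) (x : Xs L) :
    ((shR j).perm ^ n) x = x + n • (shR j).h x := by
  induction n generalizing x with
  | zero => simp
  | succ n ih =>
    rw [pow_succ, Equiv.Perm.mul_apply, ih, Shear.perm_apply, Shear.h_add, succ_nsmul]
    abel

theorem Tj_pow (j : Fin L × Fin 2) (n : ℕ) :
    (Tj R j) ^ n = (shK R j).perm⁻¹ * ((shR j).perm) ^ n * (shK R j).perm := by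
  induction n with
  | zero => simp
  | succ n ih =>
    rw [pow_succ, ih, Tj, pow_succ]
    group

theorem Tj_pow_apply (j : Fin L × Fin 2) (n : ℕ) (x : Xs L) (q : ℕ × Fin L × ℕ) :
    ((Tj R j) ^ n) x (some j, q) =
      x (some j, q) + n • (x (none, q) + hk R j x (none, q)) := by
  classical
  rw [Tj_pow, Equiv.Perm.mul_apply, Equiv.Perm.mul_apply, Shear.perm_inv_apply, shR_pow,
    Shear.perm_apply]
  have h1 : ∀ y : Xs L, (shK R j).h y (some j, q) = 0 := by
    intro y
    apply (shK R j).h0
    simp [shK]
  have h2 : ∀ y : Xs L, (shR j).h y (some j, q) = y (none, q) := by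
    intro y
    show (if (some j : Option (Fin L × Fin 2)) = some j then _ else _) = _
    rw [if_pos rfl]
  simp only [Pi.sub_apply, Pi.add_apply, Pi.smul_apply, h1, h2, sub_zero, add_zero]
  rfl

end system

end Pool.Agent.Helper671.NC
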