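import Pool.Agent.Helper671.NC.Deduce
import Pool.Agent.Helper671.NC.A5
import Pool.Agent.Helper671.NC.A6
import Pool.Agent.Helper671.NC.A7

set_option autoImplicit false

namespace Pool.Agent.Helper671.NC

open MeasureTheory

/-- the measure -/
noncomputable abbrev mu (Q : Type) : Measure (Q → UnitAddCircle) :=
  Measure.infinitePi (fun _ : Q => (volume : Measure UnitAddCircle))

theorem Shear.mp {Q : Type} (σ : Shear Q) : MeasurePreserving σ.perm (mu Q) (mu Q) :=
  shear_measurePreserving σ.S σ.h σ.hm σ.h0 σ.hd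

theorem Shear.mp_inv {Q : Type} (σ : Shear Q) : MeasurePreserving (σ.perm⁻¹ : Equiv.Perm _) (mu Q) (mu Q) := by
  have := shear_measurePreserving σ.S (fun x => - σ.h x) σ.hm.neg
    (by intro x q hq; simp [σ.h0 x q hq]) (by intro x y hxy; simp [σ.hd x y hxy])
  convert this using 2 with x
  funext x
  rw [Shear.perm_inv_apply, sub_eq_add_neg]

section

variable {L : ℕ}
variable (R : ∀ (i : ℕ) (a : Fin L), Jn L i a → Fin (i + 2) → ℤ)

theorem Tj_mp (j : Fin L × Fin 2) : MeasurePreserving (Tj R j) (mu (Idx L)) (mu (Idx L)) := by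
  have := ((shK R j).mp_inv.comp (shR j).mp).comp (shK R j).mp
  exact this

theorem Tj_measurable (j : Fin L × Fin 2) : Measurable (Tj R j) := (Tj_mp R j).measurable

theorem Tj_symm_measurable (j : Fin L × Fin 2) : Measurable (Tj R j).symm := by
  have h1 : ((Tj R j).symm : Xs L → Xs L) =
      ((shK R j).perm⁻¹ : Equiv.Perm _) ∘ ((shR j).perm⁻¹ : Equiv.Perm _) ∘ (shK R j).perm := by
    funext x
    rw [Equiv.symm_apply_eq]
    simp [Tj]
  rw [h1]
  exact (shK R j).mp_inv.measurable.comp ((shR j).mp_inv.measurable.comp (shK R j).mp.measurable)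

theorem measurableSet_Abase (H : ℕ) : MeasurableSet (Abase L H) := by
  have : Abase L H = ⋂ j : Fin L × Fin 2,
      {x : Xs L | ‖x (some j, 0, j.1, 0)‖ ≤ (1 / 2 : ℝ) ^ (H + 1)} := by
    ext x; simp [Abase]
  rw [this]
  refine MeasurableSet.iInter fun j => ?_
  exact measurableSet_le (measurable_norm.comp (measurable_pi_apply _)) measurable_const

/-- restriction to the coordinates used in a gadget -/
def restr (j : Fin L × Fin 2) (i : ℕ) (x : Xs L) : Jn L i j.1 → UnitAddCircle :=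
  fun p => x (some j, i, (p.1 : Fin L), (p.2 : ℕ))

theorem measurable_restr (j : Fin L × Fin 2) (i : ℕ) : Measurable (restr j i) := by
  unfold restr
  rw [measurable_pi_iff]
  intro p
  exact measurable_pi_apply _

variable (B : ∀ (i : ℕ) (a : Fin L), Set (Jn L i a → UnitAddCircle))

theorem Ahigh_eq : Ahigh B = ⋂ j : Fin L × Fin 2, ⋂ i : ℕ, restr j i ⁻¹' (B i j.1) := by
  ext x
  simp only [Set.mem_iInter, Set.mem_preimage]
  rfl

theorem measurableSet_Ahigh (hB : ∀ i a, MeasurableSet (B i a)) : MeasurableSet (Ahigh B) := by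
  rw [Ahigh_eq]
  exact MeasurableSet.iInter fun j => MeasurableSet.iInter fun i => measurable_restr j i (hB i j.1)

theorem map_restr (j : Fin L × Fin 2) (i : ℕ) :
    (mu (Idx L)).map (restr j i) = Measure.pi fun _ => (volume : Measure UnitAddCircle) := by
  have h := Measure.map_infinitePi_infinitePi_of_inj
    (P := fun _ : Idx L => (volume : Measure UnitAddCircle))
    (f := fun p : Jn L i j.1 => ((some j, i, (p.1 : Fin L), (p.2 : ℕ)) : Idx L)) (by
      rintro ⟨p1, p2⟩ ⟨q1, q2⟩ hpq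
      simp only [Prod.mk.injEq] at hpq
      ext
      · exact congrArg Fin.val hpq.2.2.1
      · exact hpq.2.2.2)
  rw [← Measure.infinitePi_eq_pi]
  exact h

theorem Abase_pos (H : ℕ) : 0 < mu (Idx L) (Abase L H) := by
  classical
  have h1 : Abase L H = Set.pi
      ((Finset.univ.image fun j : Fin L × Fin 2 => ((some j, 0, j.1, 0) : Idx L)) : Finset (Idx L))
      (fun _ => Metric.closedBall (0 : UnitAddCircle) ((1 / 2 : ℝ) ^ (H + 1))) := by
    ext x
    rw [Set.mem_pi]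
    constructor
    · intro hx q hq
      rw [Finset.mem_coe, Finset.mem_image] at hq
      obtain ⟨j, -, rfl⟩ := hq
      rw [mem_closedBall_zero_iff]
      exact hx j
    · intro hx j
      have := hx (some j, 0, j.1, 0) (by
        rw [Finset.mem_coe, Finset.mem_image]
        exact ⟨j, Finset.mem_univ _, rfl⟩)
      rwa [mem_closedBall_zero_iff] at this
  rw [h1, Measure.infinitePi_pi _ (fun _ _ => measurableSet_closedBall)]
  rw [pos_iff_ne_zero, Finset.prod_ne_zero_iff]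
  intro q _
  rw [AddCircle.volume_closedBall]
  rw [ne_eq, ENNReal.ofReal_eq_zero, not_le]
  positivity

theorem Ahigh_pos (H : ℕ) (hH : 1 ≤ H) (hL : 4 * (L : ℝ) * (1 / 2) ^ (2 * H) < 1)
    (hB : ∀ i a, MeasurableSet (B i a))
    (hBm : ∀ i a, (Measure.pi fun _ : Jn L i a => (volume : Measure UnitAddCircle)) (B i a)ᶜ ≤
        ENNReal.ofReal ((1 / 2 : ℝ) ^ (H * (i + 2)))) : 0 < mu (Idx L) (Ahigh B) := by
  have h1 : mu (Idx L) (Ahigh B)ᶜ < 1 := by
    have h2 : (Ahigh B)ᶜ = ⋃ j : Fin L × Fin 2, ⋃ i : ℕ, restr j i ⁻¹' (B i j.1)ᶜ := by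
      rw [Ahigh_eq]
      simp only [Set.compl_iInter, Set.preimage_compl]
    have h3 : ∀ (j : Fin L × Fin 2) (i : ℕ), mu (Idx L) (restr j i ⁻¹' (B i j.1)ᶜ) ≤
        ENNReal.ofReal ((1 / 2 : ℝ) ^ (2 * H) * (1 / 2) ^ i) := by
      intro j i
      rw [← Measure.map_apply (measurable_restr j i) (hB i j.1).compl, map_restr]
      refine (hBm i j.1).trans (ENNReal.ofReal_le_ofReal ?_)
      rw [← pow_add]
      apply pow_le_pow_of_le_one (by norm_num) (by norm_num)
      nlinarith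
    have h4 : ∀ j : Fin L × Fin 2, mu (Idx L) (⋃ i : ℕ, restr j i ⁻¹' (B i j.1)ᶜ) ≤
        ENNReal.ofReal ((1 / 2 : ℝ) ^ (2 * H) * 2) := by
      intro j
      refine (measure_iUnion_le _).trans ((ENNReal.tsum_le_tsum (h3 j)).trans ?_)
      rw [← ENNReal.ofReal_tsum_of_nonneg (fun i => by positivity)
        (summable_geometric_two.mul_left _), tsum_mul_left, tsum_geometric_two]
    rw [h2]
    refine (measure_iUnion_fintype_le _ _).trans_lt ?_
    refine (Finset.sum_le_sum fun j _ => h4 j).trans_lt ?_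
    rw [Finset.sum_const, Finset.card_univ, Fintype.card_prod, Fintype.card_fin, Fintype.card_fin,
      nsmul_eq_mul, ← ENNReal.ofReal_natCast, ← ENNReal.ofReal_mul (by positivity),
      ENNReal.ofReal_lt_one]
    push_cast
    nlinarith
  rw [pos_iff_ne_zero]
  intro h2
  have h3 := prob_compl_eq_one_sub (μ := mu (Idx L)) (measurableSet_Ahigh B hB)
  rw [h2, tsub_zero] at h3
  rw [h3] at h1
  exact lt_irrefl _ h1

theorem A_pos (H : ℕ) (hH : 1 ≤ H) (hL : 4 * (L : ℝ) * (1 / 2) ^ (2 * H) < 1)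
    (hB : ∀ i a, MeasurableSet (B i a))
    (hBm : ∀ i a, (Measure.pi fun _ : Jn L i a => (volume : Measure UnitAddCircle)) (B i a)ᶜ ≤
        ENNReal.ofReal ((1 / 2 : ℝ) ^ (H * (i + 2)))) :
    0 < mu (Idx L) (Abase L H ∩ Ahigh B) := by
  rw [indep_inter {q | ∃ j : Fin L × Fin 2, q = (some j, 0, j.1, 0)} (Abase L H) (Ahigh B)
    (measurableSet_Abase H) (measurableSet_Ahigh B hB)]
  · exact ENNReal.mul_pos (Abase_pos H).ne' (Ahigh_pos B H hH hL hB hBm).ne'
  · intro x y hxy hx j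
    rw [← hxy _ ⟨j, rfl⟩]
    exact hx j
  · intro x y hxy hx j i
    have : (fun p : Jn L i j.1 => y (some j, i, (p.1 : Fin L), (p.2 : ℕ))) =
        fun p : Jn L i j.1 => x (some j, i, (p.1 : Fin L), (p.2 : ℕ)) := by
      funext p
      rw [hxy]
      rintro ⟨j', hj'⟩
      simp only [Prod.mk.injEq, Option.some.injEq] at hj'
      apply p.1.2
      rw [hj'.2.2.1, ← hj'.1]
    rw [this]
    exact hx j i

theorem inter_null (H : ℕ) (hL : (4 * (L : ℝ) + 1) * (1 / 2) ^ H ≤ 1 / 1000) (hL0 : 0 < L)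
    (hG : Good H R B) (m n : ℕ) (hm : 0 < m) :
    mu (Idx L) ((Abase L H ∩ Ahigh B) ∩
      ⋂ j : Fin L × Fin 2, ⇑((Tj R j) ^ (tau m n j)) ⁻¹' (Abase L H ∩ Ahigh B)) = 0 := by
  have hnull := null_set (Q := Idx L) (fun p : ℕ × ℕ => (none, p.1, (⟨0, hL0⟩ : Fin L), p.2))
    (by
      rintro ⟨p1, p2⟩ ⟨q1, q2⟩ hpq
      simp only [Prod.mk.injEq] at hpq
      rw [hpq.2.1, hpq.2.2.2]) (tau m n (⟨0, hL0⟩, 0)) (tau_pos hm _)
  refine measure_mono_null ?_ hnull
  rintro x ⟨⟨hx0, hx1⟩, hx2⟩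
  rw [Set.mem_iInter] at hx2
  intro i
  have h1 := deduce H R B hL hG m n x hx0 hx1 (fun j => (hx2 j).1) (fun j => (hx2 j).2) i ⟨0, hL0⟩
  refine le_trans ?_ h1
  have h2 : {c : Fin (i + 1) | (1 / 1000 : ℝ) < ‖tau m n (⟨0, hL0⟩, 0) •
      x (none, i, (⟨0, hL0⟩ : Fin L), (c : ℕ))‖} ⊆ bad x m n i ⟨0, hL0⟩ := by
    intro c hc
    exact ⟨_, hc⟩
  exact_mod_cast Set.ncard_le_ncard h2 (Set.toFinite _)

end

theorem exists_params : ∃ H L : ℕ, 1 ≤ H ∧ 0 < L ∧ (4 * (L : ℝ) + 1) * (1 / 2) ^ H ≤ 1 / 1000 ∧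
    4 * (L : ℝ) * (1 / 2) ^ (2 * H) < 1 ∧
    ∀ i : ℕ, 100000 * (H + 1) * (i + 2) ≤ (L - 1) * (i + 1) := by
  refine ⟨36, 7400001, by norm_num, by norm_num, by norm_num, by norm_num, ?_⟩
  intro i
  omega

theorem main : ∃ (α : Type) (_ : MeasurableSpace α) (μ : Measure α) (_ : IsProbabilityMeasure μ)
    (ℓ : ℕ) (T : Fin ℓ → Equiv.Perm α) (p : Fin ℓ → Polynomial ℤ),
    (∀ i, Measurable (T i)) ∧ (∀ i, Measurable (T i).symm) ∧ (∀ i, MeasurePreserving (T i) μ μ) ∧
    Function.Injective p ∧ (∀ i, (p i).coeff 0 = 0) ∧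
    ∃ A : Set α, MeasurableSet A ∧ 0 < μ A ∧ ∀ m n : ℕ, 0 < m → 0 < n →
      μ (A ∩ ⋂ i, ⇑(T i ^ ((m : ℤ) + (p i).eval (n : ℤ))) ⁻¹' A) = 0 := by
  obtain ⟨H, L, hH, hL0, hL1, hL2, hJ⟩ := exists_params
  have hcard : ∀ (i : ℕ) (a : Fin L), Fintype.card (Jn L i a) = (L - 1) * (i + 1) := by
    intro i a
    rw [Fintype.card_prod, Fintype.card_fin]
    congr 1
    rw [Fintype.card_subtype_compl, Fintype.card_fin, Fintype.card_subtype_eq]
  have hg : ∀ (i : ℕ) (a : Fin L), ∃ (R : Jn L i a → Fin (i + 2) → ℤ)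
      (B : Set (Jn L i a → UnitAddCircle)), MeasurableSet B ∧
      (Measure.pi fun _ : Jn L i a => (volume : Measure UnitAddCircle)) Bᶜ ≤
        ENNReal.ofReal ((1 / 2 : ℝ) ^ (H * Fintype.card (Fin (i + 2)))) ∧
      ∀ (z v : Jn L i a → UnitAddCircle) (t : Fin (i + 2) → UnitAddCircle), z ∈ B →
        (fun j => z j + v j + chi (z j) • ∑ c, R j c • t c) ∈ B →
        ((Set.ncard {j | (1 / 1000 : ℝ) < ‖v j‖} : ℕ) : ℝ) ≤ (Fintype.card (Jn L i a) : ℝ) / 50 →
        ((Set.ncard {c | (1 / 2 : ℝ) ^ H < ‖t c‖} : ℕ) : ℝ) ≤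
          (Fintype.card (Fin (i + 2)) : ℝ) / 100 := by
    intro i a
    apply exists_gadget H
    · rw [Fintype.card_fin]; omega
    · rw [Fintype.card_fin, hcard]
      exact hJ i
  choose R B hB1 hB2 hB3 using hg
  simp only [Fintype.card_fin] at hB2 hB3
  have hG : Good H R B := by
    intro i a z v t hz hz' hv
    have := hB3 i a z v t hz hz' hv
    push_cast at this
    exact this
  refine ⟨Xs L, inferInstance, mu (Idx L), inferInstance, L * 2,
    fun i => Tj R (finProdFinEquiv.symm i),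
    fun i => Polynomial.C (((i : ℕ) : ℤ) + 1) * Polynomial.X,
    fun i => Tj_measurable R _, fun i => Tj_symm_measurable R _, fun i => Tj_mp R _, ?_, ?_,
    Abase L H ∩ Ahigh B, (measurableSet_Abase H).inter (measurableSet_Ahigh B hB1),
    A_pos B H hH hL2 hB1 hB2, ?_⟩
  · intro i i' hii
    have h1 := congrArg (fun p : Polynomial ℤ => p.coeff 1) hii
    simp only [Polynomial.coeff_C_mul, Polynomial.coeff_X_one, mul_one] at h1
    ext
    omega
  · intro i
    simp
  · intro m n hm hn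
    have h1 := inter_null R B H hL1 hL0 hG m n hm
    convert h1 using 3
    apply Set.ext
    intro x
    rw [Set.mem_iInter, Set.mem_iInter]
    have h2 : ∀ i : Fin (L * 2), (m : ℤ) + Polynomial.eval (n : ℤ)
        (Polynomial.C (((i : ℕ) : ℤ) + 1) * Polynomial.X) =
        ((tau m n (finProdFinEquiv.symm i) : ℕ) : ℤ) := by
      intro i
      have h3 : (i : ℕ) = ((finProdFinEquiv.symm i).2 : ℕ) + 2 * ((finProdFinEquiv.symm i).1 : ℕ) := by
        conv_lhs => rw [← finProdFinEquiv.apply_symm_apply i]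
        rfl
      unfold tau
      rw [Polynomial.eval_mul, Polynomial.eval_C, Polynomial.eval_X]
      push_cast
      rw [h3]
      push_cast
      ring
    constructor
    · intro h j
      have h3 := h (finProdFinEquiv j)
      rw [h2, zpow_natCast] at h3
      simp only [Equiv.symm_apply_apply] at h3
      exact h3
    · intro h i
      rw [h2, zpow_natCast]
      exact h (finProdFinEquiv.symm i)

end Pool.Agent.Helper671.NC
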